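import Mathlib

/-!
# Marked chain-order polytopes: definitions

`faceCount Q i` is the number `f_i(Q)` of `i`-dimensional faces of a polytope `Q`.
`IsAdmissible A U₁ U₂` is an admissible decomposition of `P ∖ A`.
`CO A lam U₁ U₂` is the marked chain-order polytope in `ℝ^{P ∖ A}`.
-/

namespace Pool.Agent.MCO

open Module

/-- `faceCount Q i` is the number of `i`-dimensional faces of `Q`: the number of nonempty
exposed faces `F` of `Q` (`Q` itself included) whose affine span has dimension `i`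
(`vectorSpan ℝ F` is the direction of the affine span of `F`). -/
noncomputable def faceCount {E : Type*} [AddCommGroup E] [Module ℝ E] [TopologicalSpace E]
    (Q : Set E) (i : ℕ) : ℕ :=
  Set.ncard {F : Set E | F.Nonempty ∧ IsExposed ℝ Q F ∧ finrank ℝ (vectorSpan ℝ F) = i}

open Classical in
/-- A point `x ∈ ℝ^{P ∖ A}` extended by the marking: `mu A lam x r` is `λ_r` for `r ∈ A`
and `x_r` for `r ∉ A`. -/
noncomputable def mu {P : Type*} (A : Set P) (lam : A → ℝ) (x : {p : P // p ∉ A} → ℝ)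
    (r : P) : ℝ :=
  if h : r ∈ A then lam ⟨r, h⟩ else x ⟨r, h⟩

/-- `(U₁, U₂)` is an admissible decomposition of `P ∖ A`: the sets are disjoint with union
`P ∖ A`, and there are no `u₁ ∈ U₁`, `u₂ ∈ U₂` with `u₁ < u₂`. -/
structure IsAdmissible {P : Type*} [PartialOrder P] (A U₁ U₂ : Set P) : Prop where
  union_eq : U₁ ∪ U₂ = Aᶜ
  inter_eq : U₁ ∩ U₂ = ∅
  not_lt : ∀ u₁ ∈ U₁, ∀ u₂ ∈ U₂, ¬ u₁ < u₂

/-- The marked chain-order polytope `CO_{U₁,U₂}(λ) ⊆ ℝ^{P ∖ A}`, given by the five groups of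
inequalities of the problem (the third group is written as two lines):
1. `0 ≤ x_p` for `p ∈ U₂`;
2. `x_p ≤ x_q` for `p < q` in `U₁`;
3. `x_p ≤ λ_a` for `p ∈ U₁`, `a ∈ A`, `p < a`, and `λ_b ≤ x_q` for `q ∈ U₁`, `b ∈ A`, `b < q`;
4. `∑_{p ∈ c} x_p ≤ x_q` for every nonempty chain `c` in `U₂` all of whose elements are below
   `q ∈ U₁`;
5. `∑_{p ∈ c} x_p ≤ μ_a - μ_b` for every nonempty chain `c` in `U₂` and `a, b ∈ A ∪ U₁` with
   `b < p < a` for all `p ∈ c`, where `μ_r = λ_r` on `A` and `μ_r = x_r` on `U₁`. -/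
def CO {P : Type*} [PartialOrder P] (A : Set P) (lam : A → ℝ) (U₁ U₂ : Set P) :
    Set ({p : P // p ∉ A} → ℝ) :=
  {x | (∀ p ∈ U₂, 0 ≤ mu A lam x p) ∧
    (∀ p ∈ U₁, ∀ q ∈ U₁, p < q → mu A lam x p ≤ mu A lam x q) ∧
    (∀ p ∈ U₁, ∀ a ∈ A, p < a → mu A lam x p ≤ mu A lam x a) ∧
    (∀ q ∈ U₁, ∀ b ∈ A, b < q → mu A lam x b ≤ mu A lam x q) ∧
    (∀ q ∈ U₁, ∀ c : Finset P, c.Nonempty → (c : Set P) ⊆ U₂ → IsChain (· ≤ ·) (c : Set P) →
      (∀ p ∈ c, p < q) → ∑ p ∈ c, mu A lam x p ≤ mu A lam x q) ∧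
    (∀ a ∈ A ∪ U₁, ∀ b ∈ A ∪ U₁, ∀ c : Finset P, c.Nonempty → (c : Set P) ⊆ U₂ →
      IsChain (· ≤ ·) (c : Set P) → (∀ p ∈ c, b < p ∧ p < a) →
      ∑ p ∈ c, mu A lam x p ≤ mu A lam x a - mu A lam x b)}

end Pool.Agent.MCO
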