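import Mathlib
import Pool.Agent.MCO.Defs

/-!
# Face numbers of `{m ≤ τ ≤ M}` and of `{0 ≤ τ ≤ M - m}`

`abstract_step`: under a splitting hypothesis on the faces of the base, the polyhedron
`{m ≤ τ ≤ M}` has at most as many `i`-dimensional faces as `{0 ≤ τ ≤ M - m}`.
-/

namespace Pool.Agent.MCO

open Set Filter Topology Module

set_option linter.unusedSectionVars false

section Poly

variable {E : Type*} [AddCommGroup E] [Module ℝ E] [TopologicalSpace E] [IsTopologicalAddGroup E]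
  [ContinuousSMul ℝ E] [T2Space E] [FiniteDimensional ℝ E]
variable {J : Type*}

/-- polyhedron given by a family of affine slack functions -/
def Poly (β : J → E →ᵃ[ℝ] ℝ) : Set E := {x | ∀ j, 0 ≤ β j x}

/-- tight constraints at a point -/
def Tight (β : J → E →ᵃ[ℝ] ℝ) (x : E) : Set J := {j | β j x = 0}

/-- common kernel of the linear parts -/
def dirSp (β : J → E →ᵃ[ℝ] ℝ) (S : Set J) : Submodule ℝ E :=
  ⨅ j ∈ S, LinearMap.ker (β j).linear

lemma mem_dirSp {β : J → E →ᵃ[ℝ] ℝ} {S : Set J} {v : E} :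
    v ∈ dirSp β S ↔ ∀ j ∈ S, (β j).linear v = 0 := by
  simp [dirSp, Submodule.mem_iInf]

/-- value of an affine function at `x + ε v` -/
lemma aff_add_smul (f : E →ᵃ[ℝ] ℝ) (x v : E) (ε : ℝ) :
    f (x + ε • v) = f x + ε * f.linear v := by
  have h := f.map_vadd x (ε • v)
  simp only [vadd_eq_add, map_smul, smul_eq_mul] at h
  rw [add_comm x, h, add_comm]

lemma aff_sub (f : E →ᵃ[ℝ] ℝ) (x y : E) :
    f.linear (y - x) = f y - f x := by
  have h := f.linearMap_vsub y x
  simpa using h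

lemma eventually_pos (a c : ℝ) (ha : 0 < a) : ∀ᶠ ε in 𝓝 (0:ℝ), 0 < a + ε * c := by
  have h : Continuous (fun ε : ℝ => a + ε * c) := by fun_prop
  have h2 : Tendsto (fun ε : ℝ => a + ε * c) (𝓝 0) (𝓝 (a + 0 * c)) := h.tendsto 0
  simp only [zero_mul, add_zero] at h2
  exact h2.eventually (lt_mem_nhds ha)

lemma eventually_tight [Finite J] (β : J → E →ᵃ[ℝ] ℝ) {x v : E} (hx : x ∈ Poly β)
    (hv : v ∈ dirSp β (Tight β x)) :
    ∀ᶠ ε in 𝓝 (0:ℝ), x + ε • v ∈ Poly β ∧ Tight β (x + ε • v) = Tight β x := by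
  rw [mem_dirSp] at hv
  have key : ∀ᶠ ε in 𝓝 (0:ℝ), ∀ j, (j ∈ Tight β x → β j (x + ε • v) = 0) ∧
      (j ∉ Tight β x → 0 < β j (x + ε • v)) := by
    rw [eventually_all]
    intro j
    by_cases hj : j ∈ Tight β x
    · refine Eventually.of_forall fun ε => ⟨fun _ => ?_, fun h => absurd hj h⟩
      rw [aff_add_smul, hv j hj]
      have : β j x = 0 := hj
      simp [this]
    · have hpos : 0 < β j x := lt_of_le_of_ne (hx j) (fun h => hj h.symm)
      filter_upwards [eventually_pos _ ((β j).linear v) hpos] with ε hε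
      refine ⟨fun h => absurd h hj, fun _ => ?_⟩
      rw [aff_add_smul]; exact hε
  filter_upwards [key] with ε hε
  refine ⟨fun j => ?_, ?_⟩
  · by_cases hj : j ∈ Tight β x
    · exact ((hε j).1 hj).ge
    · exact ((hε j).2 hj).le
  · ext j
    constructor
    · intro h
      by_contra hj
      exact ((hε j).2 hj).ne' h
    · intro hj
      exact (hε j).1 hj

/-- the face with tight set containing `S` -/
def faceOf (β : J → E →ᵃ[ℝ] ℝ) (S : Set J) : Set E := {y | y ∈ Poly β ∧ ∀ j ∈ S, β j y = 0}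

lemma vectorSpan_faceOf [Finite J] (β : J → E →ᵃ[ℝ] ℝ) {x : E} (hx : x ∈ Poly β) :
    vectorSpan ℝ (faceOf β (Tight β x)) = dirSp β (Tight β x) := by
  apply le_antisymm
  · rw [vectorSpan_def, Submodule.span_le]
    rintro _ ⟨y, hy, z, hz, rfl⟩
    simp only [vsub_eq_sub, SetLike.mem_coe]
    rw [mem_dirSp]
    intro j hj
    rw [aff_sub, hy.2 j hj, hz.2 j hj, sub_zero]
  · intro v hv
    have h := (eventually_tight β hx hv)
    have h' : ∀ᶠ ε in 𝓝[>] (0:ℝ), x + ε • v ∈ Poly β ∧ Tight β (x + ε • v) = Tight β x :=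
      h.filter_mono nhdsWithin_le_nhds
    obtain ⟨ε, hε, hpos⟩ := (h'.and self_mem_nhdsWithin).exists
    have hpos : 0 < ε := hpos
    have h1 : x ∈ faceOf β (Tight β x) := ⟨hx, fun j hj => hj⟩
    have h2 : x + ε • v ∈ faceOf β (Tight β x) := by
      refine ⟨hε.1, fun j hj => ?_⟩
      have : j ∈ Tight β (x + ε • v) := by rw [hε.2]; exact hj
      exact this
    have h3 := vsub_mem_vectorSpan ℝ h2 h1
    simp only [vsub_eq_sub, add_sub_cancel_left] at h3
    have h4 := Submodule.smul_mem _ ε⁻¹ h3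
    rwa [smul_smul, inv_mul_cancel₀ hpos.ne', one_smul] at h4

lemma isExposed_faceOf [Finite J] (β : J → E →ᵃ[ℝ] ℝ) {x : E} (_hx : x ∈ Poly β) :
    IsExposed ℝ (Poly β) (faceOf β (Tight β x)) := by
  classical
  intro _
  have := Fintype.ofFinite J
  let l : E →ₗ[ℝ] ℝ := - ∑ j ∈ Finset.univ.filter (· ∈ Tight β x), (β j).linear
  refine ⟨LinearMap.toContinuousLinearMap l, ?_⟩
  have hl : ∀ y z : E, l y - l z = -(∑ j ∈ Finset.univ.filter (· ∈ Tight β x), (β j y - β j z)) := by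
    intro y z
    simp only [l, LinearMap.neg_apply, LinearMap.sum_apply]
    rw [← neg_sub_neg, neg_neg, neg_neg, ← Finset.sum_sub_distrib, ← Finset.sum_neg_distrib]
    refine Finset.sum_congr rfl fun j _ => ?_
    rw [← map_sub, aff_sub]
    ring
  have hsum : ∀ y : E, l y - l x = -(∑ j ∈ Finset.univ.filter (· ∈ Tight β x), β j y) := by
    intro y
    rw [hl]
    congr 1
    refine Finset.sum_congr rfl fun j hj => ?_
    have : β j x = 0 := (Finset.mem_filter.1 hj).2
    rw [this, sub_zero]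
  ext y
  simp only [LinearMap.coe_toContinuousLinearMap', mem_ofPred_eq, faceOf]
  constructor
  · rintro ⟨hy, hy2⟩
    refine ⟨hy, fun z hz => ?_⟩
    have h1 := hsum y
    have h2 := hsum z
    have h3 : ∑ j ∈ Finset.univ.filter (· ∈ Tight β x), β j y = 0 :=
      Finset.sum_eq_zero fun j hj => hy2 j (by simpa using hj)
    have h4 : 0 ≤ ∑ j ∈ Finset.univ.filter (· ∈ Tight β x), β j z :=
      Finset.sum_nonneg fun j _ => hz j
    linarith
  · rintro ⟨hy, hy2⟩
    refine ⟨hy, fun j hj => ?_⟩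
    have h1 := hy2 x _hx
    have h2 := hsum y
    have h3 : ∑ j ∈ Finset.univ.filter (· ∈ Tight β x), β j y ≤ 0 := by linarith
    have h4 : ∑ j ∈ Finset.univ.filter (· ∈ Tight β x), β j y = 0 :=
      le_antisymm h3 (Finset.sum_nonneg fun j _ => hy j)
    exact (Finset.sum_eq_zero_iff_of_nonneg (fun j _ => hy j)).1 h4 j (by simpa using hj)

lemma convex_poly (β : J → E →ᵃ[ℝ] ℝ) : Convex ℝ (Poly β) := by
  have : Poly β = ⋂ j, (β j) ⁻¹' (Ici 0) := by
    ext x; simp [Poly]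
  rw [this]
  exact convex_iInter fun j => (convex_Ici 0).affine_preimage (β j)

/-- a nonempty exposed face is `faceOf` of a tight set of one of its points -/
lemma exposed_eq_faceOf [Finite J] (β : J → E →ᵃ[ℝ] ℝ) {F : Set E} (hF : F.Nonempty)
    (hexp : IsExposed ℝ (Poly β) F) : ∃ x ∈ Poly β, F = faceOf β (Tight β x) := by
  classical
  have := Fintype.ofFinite J
  obtain ⟨l, hl⟩ := hexp hF
  have hsub : F ⊆ Poly β := by rw [hl]; intro x hx; exact hx.1
  have hconv : Convex ℝ F := hexp.convex (convex_poly β)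
  -- choose the point of F with the smallest tight set
  obtain ⟨x, hxF, hxmin⟩ : ∃ x ∈ F, ∀ y ∈ F, (Tight β x).ncard ≤ (Tight β y).ncard := by
    obtain ⟨x, hx, hmin⟩ := WellFounded.has_min (measure fun y : E => (Tight β y).ncard).wf F hF
    exact ⟨x, hx, fun y hy => not_lt.1 (hmin y hy)⟩
  refine ⟨x, hsub hxF, ?_⟩
  have hxP := hsub hxF
  ext y
  constructor
  · intro hy
    refine ⟨hsub hy, fun j hj => ?_⟩
    by_contra hne
    -- midpoint has a smaller tight set
    have hz : (1/2:ℝ) • x + (1/2:ℝ) • y ∈ F := hconv hxF hy (by norm_num) (by norm_num) (by norm_num)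
    have hval : ∀ k, β k ((1/2:ℝ) • x + (1/2:ℝ) • y) = (1/2) * β k x + (1/2) * β k y := by
      intro k
      have e1 : (1/2:ℝ) • x + (1/2:ℝ) • y = x + (1/2:ℝ) • (y - x) := by
        rw [smul_sub]
        have : x = (1/2:ℝ) • x + (1/2:ℝ) • x := by rw [← add_smul]; norm_num
        nth_rewrite 2 [this]
        abel
      rw [e1, aff_add_smul, aff_sub]; ring
    have hlt : (Tight β ((1/2:ℝ) • x + (1/2:ℝ) • y)).ncard < (Tight β x).ncard := by
      apply Set.ncard_lt_ncard _ (Set.toFinite _)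
      refine ⟨fun k hk => ?_, fun hsub' => ?_⟩
      · have h1 : β k ((1/2:ℝ) • x + (1/2:ℝ) • y) = 0 := hk
        rw [hval] at h1
        have := hxP k
        have := hsub hy k
        show β k x = 0
        linarith
      · have h1 : β j ((1/2:ℝ) • x + (1/2:ℝ) • y) = 0 := hsub' hj
        rw [hval] at h1
        have h2 : β j x = 0 := hj
        apply hne
        rw [h2] at h1
        linarith
    exact absurd (hxmin _ hz) (not_le.2 hlt)
  · rintro ⟨hyP, hy⟩
    have hv : x - y ∈ dirSp β (Tight β x) := by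
      rw [mem_dirSp]
      intro j hj
      rw [aff_sub, hy j hj]
      have : β j x = 0 := hj
      rw [this, sub_zero]
    have h := (eventually_tight β hxP hv)
    have h' : ∀ᶠ ε in 𝓝[>] (0:ℝ), x + ε • (x - y) ∈ Poly β ∧ Tight β (x + ε • (x - y)) = Tight β x :=
      h.filter_mono nhdsWithin_le_nhds
    obtain ⟨ε, hε, hpos⟩ := (h'.and self_mem_nhdsWithin).exists
    have hpos : 0 < ε := hpos
    rw [hl] at hxF ⊢
    refine ⟨hyP, fun z hz => ?_⟩
    have h1 := hxF.2 _ hε.1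
    have h2 := hxF.2 z hz
    simp only [map_add, map_smul, smul_eq_mul, map_sub] at h1
    have h3 : ε * (l x - l y) ≤ 0 := by linarith
    have h4 : l x - l y ≤ 0 := by
      by_contra h5
      push Not at h5
      have := mul_pos hpos h5
      linarith
    linarith

/-- faces of a polyhedron correspond to its tight sets -/
theorem faceCount_poly [Finite J] (β : J → E →ᵃ[ℝ] ℝ) (i : ℕ) :
    faceCount (Poly β) i =
      Set.ncard {S : Set J | ∃ x ∈ Poly β, Tight β x = S ∧ finrank ℝ (dirSp β S) = i} := by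
  symm
  unfold faceCount
  apply Set.ncard_congr (fun S _ => faceOf β S)
  · rintro S ⟨x, hx, rfl, hd⟩
    refine ⟨⟨x, hx, fun j hj => hj⟩, isExposed_faceOf β hx, ?_⟩
    rw [vectorSpan_faceOf β hx]; exact hd
  · rintro S T ⟨x, hx, rfl, _⟩ ⟨y, hy, rfl, _⟩ h
    have hx' : x ∈ faceOf β (Tight β y) := by
      rw [← h]; exact ⟨hx, fun j hj => hj⟩
    have hy' : y ∈ faceOf β (Tight β x) := by
      rw [h]; exact ⟨hy, fun j hj => hj⟩
    exact Set.Subset.antisymm (fun j hj => hy'.2 j hj) (fun j hj => hx'.2 j hj)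
  · rintro F ⟨hF, hexp, hd⟩
    obtain ⟨x, hx, rfl⟩ := exposed_eq_faceOf β hF hexp
    exact ⟨Tight β x, ⟨x, hx, rfl, by rw [← vectorSpan_faceOf β hx]; exact hd⟩, rfl⟩

end Poly

section Core

variable {E : Type*} [AddCommGroup E] [Module ℝ E] [TopologicalSpace E] [IsTopologicalAddGroup E]
  [ContinuousSMul ℝ E] [T2Space E] [FiniteDimensional ℝ E]

/-- the set of maximizing indices at `y` -/
def Act {C : Type*} (m : C → E →ᵃ[ℝ] ℝ) (y : E) : Set C := {c | ∀ c', m c' y ≤ m c y}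

/-- directions along which all the functions in `A` have the same derivative -/
def EqDir {C : Type*} (m : C → E →ᵃ[ℝ] ℝ) (A : Set C) : Submodule ℝ E :=
  ⨅ c ∈ A, ⨅ c' ∈ A, LinearMap.ker ((m c).linear - (m c').linear)

lemma mem_EqDir {C : Type*} {m : C → E →ᵃ[ℝ] ℝ} {A : Set C} {v : E} :
    v ∈ EqDir m A ↔ ∀ c ∈ A, ∀ c' ∈ A, (m c).linear v = (m c').linear v := by
  simp [EqDir, Submodule.mem_iInf, sub_eq_zero]

lemma Act_nonempty {C : Type*} [Finite C] [Nonempty C] (m : C → E →ᵃ[ℝ] ℝ) (y : E) :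
    (Act m y).Nonempty := by
  obtain ⟨c, hc⟩ := Finite.exists_max (fun c => m c y)
  exact ⟨c, hc⟩

lemma eventually_Act {C : Type*} [Finite C] [Nonempty C] (m : C → E →ᵃ[ℝ] ℝ) (y v : E) :
    ∀ᶠ ε in 𝓝[>] (0:ℝ), ∀ c ∈ Act m (y + ε • v), c ∈ Act m y ∧
      ∀ c' ∈ Act m y, (m c').linear v ≤ (m c).linear v := by
  have key : ∀ᶠ ε in 𝓝[>] (0:ℝ), ∀ c, c ∉ Act m y → c ∉ Act m (y + ε • v) := by
    rw [eventually_all]
    intro c
    by_cases hc : c ∈ Act m y
    · exact Eventually.of_forall fun ε h => absurd hc h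
    · obtain ⟨c0, hc0⟩ := Act_nonempty m y
      have hlt : m c y < m c0 y := by
        by_contra hge
        push Not at hge
        exact hc fun c' => (hc0 c').trans hge
      have h1 := eventually_pos (m c0 y - m c y) ((m c0).linear v - (m c).linear v) (by linarith)
      filter_upwards [h1.filter_mono nhdsWithin_le_nhds] with ε hε _ hmem
      have := hmem c0
      rw [aff_add_smul, aff_add_smul] at this
      nlinarith
  filter_upwards [key, self_mem_nhdsWithin] with ε hε hpos c hc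
  have hpos : 0 < ε := hpos
  have hcy : c ∈ Act m y := by
    by_contra h
    exact hε c h hc
  refine ⟨hcy, fun c' hc' => ?_⟩
  have h1 := hc c'
  rw [aff_add_smul, aff_add_smul] at h1
  have h2 : m c' y = m c y := le_antisymm (hcy c') (hc' c)
  rw [h2] at h1
  have h3 : ε * (m c').linear v ≤ ε * (m c).linear v := by linarith
  exact le_of_mul_le_mul_left h3 hpos

/-- local hypotheses on the region `R` with direction space `K` -/
structure Region (K : Submodule ℝ E) (R : Set E) : Prop where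
  conv : Convex ℝ R
  sub : ∀ y ∈ R, ∀ y' ∈ R, y' - y ∈ K
  move : ∀ y ∈ R, ∀ v ∈ K, ∀ᶠ ε in 𝓝[>] (0:ℝ), y + ε • v ∈ R

/-- transversality: every direction of `K` splits -/
def Split {C D : Type*} (m : C → E →ᵃ[ℝ] ℝ) (n : D → E →ᵃ[ℝ] ℝ) (K : Submodule ℝ E) : Prop :=
  ∀ v ∈ K, ∃ w ∈ K, (∀ c, (m c).linear w = 0) ∧ ∀ d, (n d).linear w = (n d).linear v

lemma Split.symm {C D : Type*} {m : C → E →ᵃ[ℝ] ℝ} {n : D → E →ᵃ[ℝ] ℝ} {K : Submodule ℝ E}
    (h : Split m n K) : Split n m K := by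
  intro v hv
  obtain ⟨w, hw, h1, h2⟩ := h v hv
  refine ⟨v - w, K.sub_mem hv hw, fun d => ?_, fun c => ?_⟩
  · rw [map_sub, h2, sub_self]
  · rw [map_sub, h1, sub_zero]

variable {C D : Type*} [Finite C] [Finite D] [Nonempty C] [Nonempty D]

/-- Lemma A: one can keep the `m`-cell and make the `n`-cell generic. -/
lemma exists_generic {m : C → E →ᵃ[ℝ] ℝ} {n : D → E →ᵃ[ℝ] ℝ} {K : Submodule ℝ E} {R : Set E}
    (hR : Region K R) (hT : Split m n K) {y : E} (hy : y ∈ R) :
    ∃ y' ∈ R, Act m y' = Act m y ∧ Act n y' ⊆ Act n y ∧ K ≤ EqDir n (Act n y') := by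
  classical
  let T : Set E := {z | z ∈ R ∧ Act m z = Act m y ∧ Act n z ⊆ Act n y}
  have hTne : T.Nonempty := ⟨y, hy, rfl, subset_rfl⟩
  obtain ⟨z, ⟨hzR, hz1, hz2⟩, hmin⟩ :=
    WellFounded.has_min (measure fun z : E => (Act n z).ncard).wf T hTne
  refine ⟨z, hzR, hz1, hz2, fun v hv => ?_⟩
  rw [mem_EqDir]
  by_contra hne
  push Not at hne
  obtain ⟨d, hd, d', hd', hdd⟩ := hne
  obtain ⟨w, hwK, hw1, hw2⟩ := hT v hv
  obtain ⟨ε, ⟨h1, h2⟩, hpos⟩ := (((hR.move z hzR w hwK).and (eventually_Act n z w)).and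
    self_mem_nhdsWithin).exists
  have hact : Act m (z + ε • w) = Act m z := by
    ext c
    simp only [Act, mem_ofPred_eq, aff_add_smul, hw1, mul_zero, add_zero]
  have hlt : (Act n (z + ε • w)).ncard < (Act n z).ncard := by
    apply Set.ncard_lt_ncard _ (Set.toFinite _)
    refine ⟨fun c hc => (h2 c hc).1, fun hsub => hdd ?_⟩
    have e1 := (h2 d (hsub hd)).2 d' hd'
    have e2 := (h2 d' (hsub hd')).2 d hd
    rw [← hw2, ← hw2]
    exact le_antisymm e2 e1
  exact hmin (z + ε • w) ⟨h1, hact.trans hz1, fun c hc => hz2 (h2 c hc).1⟩ hlt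

/-- two generic cells adjacent to a common point have a common neighbour -/
lemma exists_common {m : C → E →ᵃ[ℝ] ℝ} {n : D → E →ᵃ[ℝ] ℝ} {K : Submodule ℝ E} {R : Set E}
    (hR : Region K R) (hT : Split m n K) {z : E} (hz : z ∈ R) :
    ∃ B : Set D, K ≤ EqDir n B ∧ ∀ w ∈ R, Act m w ⊆ Act m z →
      ∃ y ∈ R, Act m y = Act m w ∧ Act n y = B := by
  obtain ⟨z', hz'R, hz'1, _, hgen⟩ := exists_generic hR hT hz
  refine ⟨Act n z', hgen, fun w hw hsub => ?_⟩
  have hv : w - z' ∈ K := hR.sub z' hz'R w hw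
  obtain ⟨u, huK, hu1, hu2⟩ := hT.symm (w - z') hv
  obtain ⟨ε, ⟨h1, hpos⟩, hlt⟩ := (((hR.move z' hz'R u huK).and self_mem_nhdsWithin).and
    (nhdsWithin_le_nhds (Iio_mem_nhds (zero_lt_one (α := ℝ))))).exists
  have hpos : 0 < ε := hpos
  have hlt : ε < 1 := hlt
  have hval : ∀ c, m c (z' + ε • u) = (1 - ε) * m c z' + ε * m c w := by
    intro c
    rw [aff_add_smul, hu2, aff_sub]; ring
  refine ⟨z' + ε • u, h1, ?_, ?_⟩
  · ext c
    constructor
    · intro hc
      obtain ⟨c1, hc1⟩ := Act_nonempty m w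
      have hc1' : c1 ∈ Act m z' := by rw [hz'1]; exact hsub hc1
      have e1 := hc c1
      rw [hval, hval] at e1
      have e2 := hc1' c
      have e3 := hc1 c
      have e4 : m c1 w ≤ m c w := by
        by_contra h
        push Not at h
        nlinarith
      exact fun c' => (hc1 c').trans e4
    · intro hc c'
      have hc' : c ∈ Act m z' := by rw [hz'1]; exact hsub hc
      rw [hval, hval]
      have e1 := hc c'
      have e2 := hc' c'
      nlinarith
  · ext d
    simp only [Act, mem_ofPred_eq, aff_add_smul, hu1, mul_zero, add_zero]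

/-- continuity of affine functions -/
lemma aff_continuous (f : E →ᵃ[ℝ] ℝ) : Continuous f := by
  have h : (f : E → ℝ) = fun x => f 0 + f.linear x := by
    ext x
    have := aff_sub f 0 x
    rw [sub_zero] at this
    rw [this]; ring
  rw [h]
  exact continuous_const.add (LinearMap.continuous_of_finiteDimensional f.linear)

/-- closed cell -/
def clCell {C : Type*} (m : C → E →ᵃ[ℝ] ℝ) (A : Set C) : Set E := {y | A ⊆ Act m y}

lemma isClosed_clCell {C : Type*} (m : C → E →ᵃ[ℝ] ℝ) (A : Set C) : IsClosed (clCell m A) := by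
  have h : clCell m A = ⋂ c ∈ A, ⋂ c', {y | m c' y ≤ m c y} := by
    ext y
    simp only [clCell, mem_ofPred_eq, mem_iInter]
    exact Iff.rfl
  rw [h]
  exact isClosed_biInter fun c _ => isClosed_iInter fun c' =>
    isClosed_le (aff_continuous _) (aff_continuous _)

/-- labels of full dimensional cells -/
def TopC {C : Type*} (m : C → E →ᵃ[ℝ] ℝ) (K : Submodule ℝ E) (R : Set E) : Set (Set C) :=
  {A | K ≤ EqDir m A ∧ ∃ y ∈ R, Act m y = A}

/-- pairs of labels of full dimensional cells with intersecting interiors -/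
def TopE {C D : Type*} (m : C → E →ᵃ[ℝ] ℝ) (n : D → E →ᵃ[ℝ] ℝ) (K : Submodule ℝ E) (R : Set E) :
    Set (Set C × Set D) :=
  {p | (K ≤ EqDir m p.1 ∧ K ≤ EqDir n p.2) ∧ ∃ y ∈ R, Act m y = p.1 ∧ Act n y = p.2}

lemma exists_step {m : C → E →ᵃ[ℝ] ℝ} {n : D → E →ᵃ[ℝ] ℝ} {K : Submodule ℝ E} {R : Set E}
    (hR : Region K R) (hT : Split m n K) (S : Set (Set C)) {A1 A2 : Set C}
    (h1 : A1 ∈ TopC m K R) (h1S : A1 ∈ S) (h2 : A2 ∈ TopC m K R) (h2S : A2 ∉ S) :
    ∃ A1' A2' : Set C, ∃ B : Set D, A1' ∈ S ∧ A2' ∉ S ∧ (A1', B) ∈ TopE m n K R ∧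
      (A2', B) ∈ TopE m n K R := by
  have hpre := hR.conv.isPreconnected
  rw [isPreconnected_closed_iff] at hpre
  have hcl : ∀ T : Set (Set C), IsClosed (⋃ A ∈ T, clCell m A) := fun T =>
    T.toFinite.isClosed_biUnion fun A _ => isClosed_clCell m A
  have hcover : R ⊆ (⋃ A ∈ (TopC m K R ∩ S), clCell m A) ∪ (⋃ A ∈ (TopC m K R \ S), clCell m A) := by
    intro y hy
    obtain ⟨y', hy'R, _, hsub, hgen⟩ := exists_generic hR hT.symm hy
    by_cases hS : Act m y' ∈ S
    · left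
      exact mem_biUnion (show Act m y' ∈ TopC m K R ∩ S from ⟨⟨hgen, y', hy'R, rfl⟩, hS⟩) hsub
    · right
      exact mem_biUnion (show Act m y' ∈ TopC m K R \ S from ⟨⟨hgen, y', hy'R, rfl⟩, hS⟩) hsub
  have hne : ∀ T : Set (Set C), ∀ A ∈ T, A ∈ TopC m K R → (R ∩ ⋃ A ∈ T, clCell m A).Nonempty := by
    rintro T A hAT ⟨_, y, hy, rfl⟩
    exact ⟨y, hy, mem_biUnion hAT (fun c hc => hc)⟩
  obtain ⟨z, hzR, hz1, hz2⟩ := hpre _ _ (hcl _) (hcl _) hcover
    (hne (TopC m K R ∩ S) A1 ⟨h1, h1S⟩ h1) (hne (TopC m K R \ S) A2 ⟨h2, h2S⟩ h2)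
  simp only [mem_iUnion, exists_prop] at hz1 hz2
  obtain ⟨A1', ⟨⟨hg1, w1, hw1, rfl⟩, hS1⟩, hz1⟩ := hz1
  obtain ⟨A2', ⟨⟨hg2, w2, hw2, rfl⟩, hS2⟩, hz2⟩ := hz2
  obtain ⟨B, hB, hall⟩ := exists_common hR hT hzR
  obtain ⟨y1, hy1R, hy1, hy1'⟩ := hall w1 hw1 hz1
  obtain ⟨y2, hy2R, hy2, hy2'⟩ := hall w2 hw2 hz2
  exact ⟨_, _, B, hS1, hS2, ⟨⟨hg1, hB⟩, y1, hy1R, hy1, hy1'⟩, ⟨⟨hg2, hB⟩, y2, hy2R, hy2, hy2'⟩⟩

/-- bipartite incidence graph of the full dimensional cells -/
def cellGraph (m : C → E →ᵃ[ℝ] ℝ) (n : D → E →ᵃ[ℝ] ℝ) (K : Submodule ℝ E) (R : Set E) :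
    SimpleGraph (↥(TopC m K R) ⊕ ↥(TopC n K R)) where
  Adj u v := match u, v with
    | Sum.inl a, Sum.inr b => ((a : Set C), (b : Set D)) ∈ TopE m n K R
    | Sum.inr b, Sum.inl a => ((a : Set C), (b : Set D)) ∈ TopE m n K R
    | _, _ => False
  symm := ⟨by rintro (a | b) (a' | b') h <;> exact h⟩
  loopless := ⟨by rintro (a | b) h <;> exact h⟩

lemma top_count {m : C → E →ᵃ[ℝ] ℝ} {n : D → E →ᵃ[ℝ] ℝ} {K : Submodule ℝ E} {R : Set E}
    (hR : Region K R) (hT : Split m n K) (hne : R.Nonempty) :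
    (TopC m K R).ncard + (TopC n K R).ncard ≤ 1 + (TopE m n K R).ncard := by
  classical
  let G := cellGraph m n K R
  have hl : ∀ A : ↥(TopC m K R), ∃ B : ↥(TopC n K R), G.Adj (Sum.inl A) (Sum.inr B) := by
    rintro ⟨A, hg, y, hy, rfl⟩
    obtain ⟨y', hy'R, h1, _, hgen⟩ := exists_generic hR hT hy
    exact ⟨⟨Act n y', hgen, y', hy'R, rfl⟩, ⟨hg, hgen⟩, y', hy'R, h1, rfl⟩
  have hr : ∀ B : ↥(TopC n K R), ∃ A : ↥(TopC m K R), G.Adj (Sum.inl A) (Sum.inr B) := by
    rintro ⟨A, hg, y, hy, rfl⟩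
    obtain ⟨y', hy'R, h1, _, hgen⟩ := exists_generic hR hT.symm hy
    exact ⟨⟨Act m y', hgen, y', hy'R, rfl⟩, ⟨hgen, hg⟩, y', hy'R, rfl, h1⟩
  obtain ⟨y0, hy0⟩ := hne
  obtain ⟨y1, hy1R, _, _, hgen1⟩ := exists_generic hR hT.symm hy0
  let A0 : ↥(TopC m K R) := ⟨Act m y1, hgen1, y1, hy1R, rfl⟩
  have hreach : ∀ A : ↥(TopC m K R), G.Reachable (Sum.inl A0) (Sum.inl A) := by
    by_contra hcon
    push Not at hcon
    obtain ⟨A, hA⟩ := hcon
    let S : Set (Set C) := {A | ∃ h : A ∈ TopC m K R, G.Reachable (Sum.inl A0) (Sum.inl ⟨A, h⟩)}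
    obtain ⟨A1, A2, B, hA1, hA2, hE1, hE2⟩ := exists_step hR hT S (A1 := (A0 : Set C))
      (A2 := (A : Set C)) A0.2 ⟨A0.2, SimpleGraph.Reachable.refl _⟩ A.2 (fun ⟨_, h⟩ => hA h)
    obtain ⟨hA1t, hA1r⟩ := hA1
    have hA2t : A2 ∈ TopC m K R := by
      obtain ⟨hg, y, hy, h1, _⟩ := hE2
      exact ⟨hg.1, y, hy, h1⟩
    have hBt : B ∈ TopC n K R := by
      obtain ⟨hg, y, hy, _, h2⟩ := hE2
      exact ⟨hg.2, y, hy, h2⟩
    have a1 : G.Adj (Sum.inl ⟨A1, hA1t⟩) (Sum.inr ⟨B, hBt⟩) := hE1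
    have a2 : G.Adj (Sum.inr ⟨B, hBt⟩) (Sum.inl ⟨A2, hA2t⟩) := hE2
    exact hA2 ⟨hA2t, (hA1r.trans a1.reachable).trans a2.reachable⟩
  have hconn : G.Connected := by
    have hall : ∀ u, G.Reachable (Sum.inl A0) u := by
      rintro (A | B)
      · exact hreach A
      · obtain ⟨A, hA⟩ := hr B
        exact (hreach A).trans hA.reachable
    have : Nonempty (↥(TopC m K R) ⊕ ↥(TopC n K R)) := ⟨Sum.inl A0⟩
    exact ⟨fun u v => (hall u).symm.trans (hall v)⟩
  have h1 := hconn.card_vert_le_card_edgeSet_add_one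
  have h2 : Nat.card G.edgeSet ≤ (TopE m n K R).ncard := by
    rw [← Nat.card_coe_set_eq]
    have hf : ∀ p : ↥(TopE m n K R), ∃ e : G.edgeSet, ∃ (ha : p.1.1 ∈ TopC m K R)
        (hb : p.1.2 ∈ TopC n K R), (e : Sym2 (↥(TopC m K R) ⊕ ↥(TopC n K R))) = s(Sum.inl ⟨p.1.1, ha⟩, Sum.inr ⟨p.1.2, hb⟩) := by
      rintro ⟨⟨A, B⟩, hg, y, hy, h1, h2⟩
      have ha : A ∈ TopC m K R := ⟨hg.1, y, hy, h1⟩
      have hb : B ∈ TopC n K R := ⟨hg.2, y, hy, h2⟩
      exact ⟨⟨s(Sum.inl ⟨A, ha⟩, Sum.inr ⟨B, hb⟩), by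
        rw [SimpleGraph.mem_edgeSet]
        exact ⟨hg, y, hy, h1, h2⟩⟩, ha, hb, rfl⟩
    choose f hfa hfb hf using hf
    apply Nat.card_le_card_of_surjective f
    rintro ⟨e, he⟩
    induction e using Sym2.ind with
    | _ u v =>
      rw [SimpleGraph.mem_edgeSet] at he
      rcases u with u | u <;> rcases v with v | v
      · exact absurd he id
      · refine ⟨⟨(u.1, v.1), he⟩, ?_⟩
        apply Subtype.ext
        rw [hf]
      · refine ⟨⟨(v.1, u.1), he⟩, ?_⟩
        apply Subtype.ext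
        rw [hf]
        exact Sym2.eq_swap
      · exact absurd he id
  rw [Nat.card_sum, Nat.card_coe_set_eq, Nat.card_coe_set_eq] at h1
  omega

/-- labels of `i`-dimensional cells -/
def CellC {C : Type*} (m : C → E →ᵃ[ℝ] ℝ) (K : Submodule ℝ E) (R : Set E) (i : ℕ) :
    Set (Set C) :=
  {A | finrank ℝ ↥(K ⊓ EqDir m A) = i ∧ ∃ y ∈ R, Act m y = A}

/-- labels of `i`-dimensional cells of the common refinement -/
def CellE {C D : Type*} (m : C → E →ᵃ[ℝ] ℝ) (n : D → E →ᵃ[ℝ] ℝ) (K : Submodule ℝ E) (R : Set E)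
    (i : ℕ) : Set (Set C × Set D) :=
  {p | finrank ℝ ↥(K ⊓ EqDir m p.1 ⊓ EqDir n p.2) = i ∧ ∃ y ∈ R, Act m y = p.1 ∧ Act n y = p.2}

lemma finrank_inf_eq_iff {K L : Submodule ℝ E} :
    finrank ℝ ↥(K ⊓ L) = finrank ℝ K ↔ K ≤ L := by
  constructor
  · intro h
    have := Submodule.eq_of_le_of_finrank_eq (inf_le_left : K ⊓ L ≤ K) h
    rw [← this]; exact inf_le_right
  · intro h
    rw [inf_eq_left.2 h]

open Classical in
lemma core_count {m : C → E →ᵃ[ℝ] ℝ} {n : D → E →ᵃ[ℝ] ℝ} {K : Submodule ℝ E} {R : Set E}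
    (hR : Region K R) (hT' : R.Nonempty → Split m n K) (i : ℕ) :
    (CellC m K R i).ncard + (CellC n K R i).ncard ≤
      (if R.Nonempty ∧ finrank ℝ K = i then 1 else 0) + (CellE m n K R i).ncard := by
  rcases R.eq_empty_or_nonempty with hemp | hne
  · subst hemp
    have h1 : CellC m K (∅ : Set E) i = ∅ := by
      ext A; simp [CellC]
    have h2 : CellC n K (∅ : Set E) i = ∅ := by
      ext A; simp [CellC]
    rw [h1, h2]; simp
  have hT := hT' hne
  by_cases hi : finrank ℝ K = i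
  · subst hi
    rw [if_pos ⟨hne, rfl⟩]
    have h1 : CellC m K R (finrank ℝ K) = TopC m K R := by
      ext A
      exact and_congr_left' finrank_inf_eq_iff
    have h2 : CellC n K R (finrank ℝ K) = TopC n K R := by
      ext A
      exact and_congr_left' finrank_inf_eq_iff
    have h3 : CellE m n K R (finrank ℝ K) = TopE m n K R := by
      ext p
      refine and_congr_left' ?_
      rw [inf_assoc, finrank_inf_eq_iff, le_inf_iff]
    rw [h1, h2, h3]
    exact top_count hR hT hne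
  · rw [if_neg (fun h => hi h.2), zero_add]
    have hf : ∀ A : ↥(CellC m K R i), ∃ p : ↥(CellE m n K R i), p.1.1 = A.1 ∧
        K ≤ EqDir n p.1.2 := by
      rintro ⟨A, hA, y, hy, rfl⟩
      obtain ⟨y', hy'R, h1, _, hgen⟩ := exists_generic hR hT hy
      refine ⟨⟨(Act m y, Act n y'), ?_, y', hy'R, h1, rfl⟩, rfl, hgen⟩
      have : K ⊓ EqDir m (Act m y) ⊓ EqDir n (Act n y') = K ⊓ EqDir m (Act m y) :=
        inf_eq_left.2 (inf_le_left.trans hgen)
      rw [this]; exact hA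
    have hg : ∀ B : ↥(CellC n K R i), ∃ p : ↥(CellE m n K R i), p.1.2 = B.1 ∧
        K ≤ EqDir m p.1.1 := by
      rintro ⟨A, hA, y, hy, rfl⟩
      obtain ⟨y', hy'R, h1, _, hgen⟩ := exists_generic hR hT.symm hy
      refine ⟨⟨(Act m y', Act n y), ?_, y', hy'R, rfl, h1⟩, rfl, hgen⟩
      have : K ⊓ EqDir m (Act m y') ⊓ EqDir n (Act n y) = K ⊓ EqDir n (Act n y) := by
        rw [inf_eq_left.2 hgen]
      rw [this]; exact hA
    choose f hf1 hf2 using hf
    choose g hg1 hg2 using hg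
    rw [← Nat.card_coe_set_eq, ← Nat.card_coe_set_eq, ← Nat.card_coe_set_eq, ← Nat.card_sum]
    apply Nat.card_le_card_of_injective (Sum.elim f g)
    rintro (a | b) (a' | b') h
    · simp only [Sum.elim_inl] at h
      congr 1
      apply Subtype.ext
      rw [← hf1 a, ← hf1 a', h]
    · simp only [Sum.elim_inl, Sum.elim_inr] at h
      exfalso
      have e1 := hg2 b'
      rw [← h, hf1] at e1
      exact hi ((finrank_inf_eq_iff.2 e1).symm.trans a.2.1)
    · simp only [Sum.elim_inl, Sum.elim_inr] at h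
      exfalso
      have e1 := hg2 b
      rw [h, hf1] at e1
      exact hi ((finrank_inf_eq_iff.2 e1).symm.trans a'.2.1)
    · simp only [Sum.elim_inr] at h
      congr 1
      apply Subtype.ext
      rw [← hg1 b, ← hg1 b', h]

end Core

section Step

variable {E : Type*} [AddCommGroup E] [Module ℝ E] [TopologicalSpace E] [IsTopologicalAddGroup E]
  [ContinuousSMul ℝ E] [T2Space E] [FiniteDimensional ℝ E]

lemma finrank_inf_ker (K : Submodule ℝ E) (f : E →ₗ[ℝ] ℝ) {e : E} (he : e ∈ K) (hf : f e = 1) :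
    finrank ℝ ↥(K ⊓ LinearMap.ker f) + 1 = finrank ℝ K := by
  let g : K →ₗ[ℝ] ℝ := f.comp K.subtype
  have hsurj : LinearMap.range g = ⊤ := by
    rw [LinearMap.range_eq_top]
    intro r
    refine ⟨r • ⟨e, he⟩, ?_⟩
    simp [g, hf]
  have h1 := g.finrank_range_add_finrank_ker
  rw [hsurj, finrank_top, finrank_self] at h1
  have h2 : finrank ℝ ↥(K ⊓ LinearMap.ker f) = finrank ℝ (LinearMap.ker g) := by
    have h3 : LinearMap.ker g = Submodule.comap K.subtype (K ⊓ LinearMap.ker f) := by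
      ext v
      simp [g]
    rw [h3]
    exact (Submodule.comapSubtypeEquivOfLe (inf_le_left : K ⊓ LinearMap.ker f ≤ K)).finrank_eq.symm
  omega

variable {J C D : Type*} [Finite J] [Finite C] [Finite D] [Nonempty C] [Nonempty D]

/-- base region: tight set exactly `S`, and `max m < min M` -/
def Reg (β : J → E →ᵃ[ℝ] ℝ) (m : C → E →ᵃ[ℝ] ℝ) (M : D → E →ᵃ[ℝ] ℝ) (S : Set J) : Set E :=
  {y | y ∈ Poly β ∧ Tight β y = S ∧ ∀ c d, m c y < M d y}

lemma region_Reg (β : J → E →ᵃ[ℝ] ℝ) (m : C → E →ᵃ[ℝ] ℝ) (M : D → E →ᵃ[ℝ] ℝ) (S : Set J) :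
    Region (dirSp β S) (Reg β m M S) where
  conv := by
    rintro x ⟨hx, hxS, hxm⟩ y ⟨hy, hyS, hym⟩ a b ha hb hab
    have hv : ∀ f : E →ᵃ[ℝ] ℝ, f (a • x + b • y) = a * f x + b * f y := by
      intro f
      have := Convex.combo_affine_apply (f := f) (x := x) (y := y) hab
      simpa using this
    have hab' : 0 < a ∨ 0 < b := by
      by_contra h
      push Not at h
      have : a = 0 := le_antisymm h.1 ha
      have : b = 0 := le_antisymm h.2 hb
      linarith
    refine ⟨convex_poly β hx hy ha hb hab, ?_, fun c d => ?_⟩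
    · ext j
      constructor
      · intro hj
        have hj' : β j (a • x + b • y) = 0 := hj
        rw [hv] at hj'
        have h1 := mul_nonneg ha (hx j)
        have h2 := mul_nonneg hb (hy j)
        have h3 : a * β j x = 0 := by linarith
        have h4 : b * β j y = 0 := by linarith
        rcases hab' with h | h
        · rw [← hxS]; exact (mul_eq_zero.1 h3).resolve_left h.ne'
        · rw [← hyS]; exact (mul_eq_zero.1 h4).resolve_left h.ne'
      · intro hj
        have h1 : β j x = 0 := by rw [← hxS] at hj; exact hj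
        have h2 : β j y = 0 := by rw [← hyS] at hj; exact hj
        show β j (a • x + b • y) = 0
        rw [hv, h1, h2]; ring
    · rw [hv, hv]
      have h1 := hxm c d
      have h2 := hym c d
      rcases hab' with h | h
      · nlinarith [mul_pos h (sub_pos.2 h1), mul_nonneg hb (sub_pos.2 h2).le]
      · nlinarith [mul_pos h (sub_pos.2 h2), mul_nonneg ha (sub_pos.2 h1).le]
  sub := by
    rintro y ⟨_, hyS, _⟩ y' ⟨_, hyS', _⟩
    rw [mem_dirSp]
    intro j hj
    have h1 : β j y = 0 := by rw [← hyS] at hj; exact hj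
    have h2 : β j y' = 0 := by rw [← hyS'] at hj; exact hj
    rw [aff_sub, h1, h2, sub_zero]
  move := by
    rintro y ⟨hy, hyS, hym⟩ v hv
    have h1 := eventually_tight β hy (v := v) (by rw [hyS]; exact hv)
    have h2 : ∀ᶠ ε in 𝓝 (0:ℝ), ∀ c, ∀ d, m c (y + ε • v) < M d (y + ε • v) := by
      rw [eventually_all]
      intro c
      rw [eventually_all]
      intro d
      filter_upwards [eventually_pos (M d y - m c y) ((M d).linear v - (m c).linear v)
        (sub_pos.2 (hym c d))] with ε hε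
      rw [aff_add_smul, aff_add_smul]
      linarith
    filter_upwards [(h1.and h2).filter_mono nhdsWithin_le_nhds] with ε hε
    exact ⟨hε.1.1, hε.1.2.trans hyS, hε.2⟩

/-- slack family of the `order` polytope -/
noncomputable def beta2 (β : J → E →ᵃ[ℝ] ℝ) (m : C → E →ᵃ[ℝ] ℝ) (M : D → E →ᵃ[ℝ] ℝ)
    (τ : E →ₗ[ℝ] ℝ) : J ⊕ C ⊕ D → E →ᵃ[ℝ] ℝ
  | Sum.inl j => β j
  | Sum.inr (Sum.inl c) => τ.toAffineMap - m c
  | Sum.inr (Sum.inr d) => M d - τ.toAffineMap

/-- slack family of the `chain` polytope -/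
noncomputable def beta1 (β : J → E →ᵃ[ℝ] ℝ) (m : C → E →ᵃ[ℝ] ℝ) (M : D → E →ᵃ[ℝ] ℝ)
    (τ : E →ₗ[ℝ] ℝ) : J ⊕ Unit ⊕ C × D → E →ᵃ[ℝ] ℝ
  | Sum.inl j => β j
  | Sum.inr (Sum.inl _) => τ.toAffineMap
  | Sum.inr (Sum.inr p) => M p.2 - (τ.toAffineMap + m p.1)

lemma poly_beta2 (β : J → E →ᵃ[ℝ] ℝ) (m : C → E →ᵃ[ℝ] ℝ) (M : D → E →ᵃ[ℝ] ℝ)
    (τ : E →ₗ[ℝ] ℝ) (x : E) :
    x ∈ Poly (beta2 β m M τ) ↔ x ∈ Poly β ∧ (∀ c, m c x ≤ τ x) ∧ ∀ d, τ x ≤ M d x := by
  constructor
  · intro h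
    refine ⟨fun j => h (Sum.inl j), fun c => ?_, fun d => ?_⟩
    · have := h (Sum.inr (Sum.inl c))
      simpa [beta2] using this
    · have := h (Sum.inr (Sum.inr d))
      simpa [beta2] using this
  · rintro ⟨h1, h2, h3⟩ (j | c | d)
    · exact h1 j
    · simpa [beta2] using h2 c
    · simpa [beta2] using h3 d

lemma poly_beta1 (β : J → E →ᵃ[ℝ] ℝ) (m : C → E →ᵃ[ℝ] ℝ) (M : D → E →ᵃ[ℝ] ℝ)
    (τ : E →ₗ[ℝ] ℝ) (x : E) :
    x ∈ Poly (beta1 β m M τ) ↔ x ∈ Poly β ∧ 0 ≤ τ x ∧ ∀ c d, τ x + m c x ≤ M d x := by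
  constructor
  · intro h
    refine ⟨fun j => h (Sum.inl j), ?_, fun c d => ?_⟩
    · have := h (Sum.inr (Sum.inl ()))
      simpa [beta1] using this
    · have := h (Sum.inr (Sum.inr (c, d)))
      simpa [beta1] using this
  · rintro ⟨h1, h2, h3⟩ (j | c | ⟨c, d⟩)
    · exact h1 j
    · simpa [beta1] using h2
    · simpa [beta1] using h3 c d

/-- build a tight set of `beta2` -/
def mk2 {J C D : Type*} (S : Set J) (A : Set C) (B : Set D) : Set (J ⊕ C ⊕ D) :=
  {k | match k with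
    | Sum.inl j => j ∈ S
    | Sum.inr (Sum.inl c) => c ∈ A
    | Sum.inr (Sum.inr d) => d ∈ B}

/-- build a tight set of `beta1` -/
def mk1 {J C D : Type*} (S : Set J) (l : Prop) (W : Set (C × D)) : Set (J ⊕ Unit ⊕ C × D) :=
  {k | match k with
    | Sum.inl j => j ∈ S
    | Sum.inr (Sum.inl _) => l
    | Sum.inr (Sum.inr p) => p ∈ W}

lemma mk1_inj {J C D : Type*} {S S' : Set J} {l l' : Prop} {W W' : Set (C × D)}
    (h : mk1 S l W = mk1 S' l' W') : S = S' ∧ (l ↔ l') ∧ W = W' := by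
  refine ⟨?_, ?_, ?_⟩
  · ext j
    exact (Set.ext_iff.1 h) (Sum.inl j)
  · exact (Set.ext_iff.1 h) (Sum.inr (Sum.inl ()))
  · ext p
    exact (Set.ext_iff.1 h) (Sum.inr (Sum.inr p))

/-- directions with equal derivative of all `m c`, `M d` -/
def eqCD (m : C → E →ᵃ[ℝ] ℝ) (M : D → E →ᵃ[ℝ] ℝ) (A : Set C) (B : Set D) : Submodule ℝ E :=
  ⨅ c ∈ A, ⨅ d ∈ B, LinearMap.ker ((m c).linear - (M d).linear)

lemma mem_eqCD {m : C → E →ᵃ[ℝ] ℝ} {M : D → E →ᵃ[ℝ] ℝ} {A : Set C} {B : Set D} {v : E} :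
    v ∈ eqCD m M A B ↔ ∀ c ∈ A, ∀ d ∈ B, (m c).linear v = (M d).linear v := by
  simp [eqCD, Submodule.mem_iInf, sub_eq_zero]

/-- negated family -/
noncomputable def neg' (M : D → E →ᵃ[ℝ] ℝ) : D → E →ᵃ[ℝ] ℝ := fun d => -(M d)

lemma neg'_apply (M : D → E →ᵃ[ℝ] ℝ) (d : D) (y : E) : neg' M d y = - M d y := rfl

lemma neg'_linear (M : D → E →ᵃ[ℝ] ℝ) (d : D) (y : E) :
    (neg' M d).linear y = - (M d).linear y := rfl

lemma mem_dirSp_mk2 {β : J → E →ᵃ[ℝ] ℝ} {m : C → E →ᵃ[ℝ] ℝ} {M : D → E →ᵃ[ℝ] ℝ}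
    {τ : E →ₗ[ℝ] ℝ} {S : Set J} {A : Set C} {B : Set D} {v : E} :
    v ∈ dirSp (beta2 β m M τ) (mk2 S A B) ↔ v ∈ dirSp β S ∧ (∀ c ∈ A, τ v = (m c).linear v) ∧
      ∀ d ∈ B, τ v = (M d).linear v := by
  rw [mem_dirSp, mem_dirSp]
  constructor
  · intro h
    refine ⟨fun j hj => h (Sum.inl j) hj, fun c hc => ?_, fun d hd => ?_⟩
    · have := h (Sum.inr (Sum.inl c)) hc
      simpa [beta2, sub_eq_zero] using this
    · have := h (Sum.inr (Sum.inr d)) hd
      have h2 : (M d).linear v - τ v = 0 := by simpa [beta2] using this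
      linarith
  · rintro ⟨h1, h2, h3⟩ (j | c | d) hk
    · exact h1 j hk
    · have := h2 c hk
      simp [beta2, this]
    · have := h3 d hk
      simp [beta2, this]

lemma mem_dirSp_mk1 {β : J → E →ᵃ[ℝ] ℝ} {m : C → E →ᵃ[ℝ] ℝ} {M : D → E →ᵃ[ℝ] ℝ}
    {τ : E →ₗ[ℝ] ℝ} {S : Set J} {l : Prop} {W : Set (C × D)} {v : E} :
    v ∈ dirSp (beta1 β m M τ) (mk1 S l W) ↔ v ∈ dirSp β S ∧ (l → τ v = 0) ∧
      ∀ p ∈ W, τ v + (m p.1).linear v = (M p.2).linear v := by
  rw [mem_dirSp, mem_dirSp]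
  constructor
  · intro h
    refine ⟨fun j hj => h (Sum.inl j) hj, fun hl => ?_, fun p hp => ?_⟩
    · have := h (Sum.inr (Sum.inl ())) hl
      simpa [beta1] using this
    · have := h (Sum.inr (Sum.inr p)) hp
      have h2 : (M p.2).linear v - (τ v + (m p.1).linear v) = 0 := by simpa [beta1] using this
      linarith
  · rintro ⟨h1, h2, h3⟩ (j | c | p) hk
    · exact h1 j hk
    · have := h2 hk
      simp [beta1, this]
    · have := h3 p hk
      simp [beta1, ← this]

/-- codes: base tight sets of dimension `i` -/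
def codeV (β : J → E →ᵃ[ℝ] ℝ) (m : C → E →ᵃ[ℝ] ℝ) (M : D → E →ᵃ[ℝ] ℝ) (i : ℕ) : Set (Set J) :=
  {S | (Reg β m M S).Nonempty ∧ finrank ℝ (dirSp β S) = i}

/-- codes of flat faces -/
def codeF (β : J → E →ᵃ[ℝ] ℝ) (m : C → E →ᵃ[ℝ] ℝ) (M : D → E →ᵃ[ℝ] ℝ) (i : ℕ) :
    Set (Set J × Set C × Set D) :=
  {p | (∃ y ∈ Poly β, Tight β y = p.1 ∧ Act m y = p.2.1 ∧ Act (neg' M) y = p.2.2 ∧
      ∀ c ∈ p.2.1, ∀ d ∈ p.2.2, m c y = M d y) ∧
    finrank ℝ ↥(dirSp β p.1 ⊓ eqCD m M p.2.1 p.2.2) = i}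

lemma tight_beta2 (β : J → E →ᵃ[ℝ] ℝ) (m : C → E →ᵃ[ℝ] ℝ) (M : D → E →ᵃ[ℝ] ℝ)
    (τ : E →ₗ[ℝ] ℝ) (x : E) :
    Tight (beta2 β m M τ) x = mk2 (Tight β x) {c | m c x = τ x} {d | τ x = M d x} := by
  ext (j | c | d)
  · exact Iff.rfl
  · show beta2 β m M τ (Sum.inr (Sum.inl c)) x = 0 ↔ m c x = τ x
    simp only [beta2, AffineMap.coe_sub, Pi.sub_apply, LinearMap.coe_toAffineMap, sub_eq_zero]
    exact eq_comm
  · show beta2 β m M τ (Sum.inr (Sum.inr d)) x = 0 ↔ τ x = M d x
    simp only [beta2, AffineMap.coe_sub, Pi.sub_apply, LinearMap.coe_toAffineMap, sub_eq_zero]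
    exact eq_comm

lemma tight_beta1 (β : J → E →ᵃ[ℝ] ℝ) (m : C → E →ᵃ[ℝ] ℝ) (M : D → E →ᵃ[ℝ] ℝ)
    (τ : E →ₗ[ℝ] ℝ) (x : E) :
    Tight (beta1 β m M τ) x = mk1 (Tight β x) (τ x = 0) {p | τ x + m p.1 x = M p.2 x} := by
  ext (j | c | p)
  · exact Iff.rfl
  · exact Iff.rfl
  · show beta1 β m M τ (Sum.inr (Sum.inr p)) x = 0 ↔ τ x + m p.1 x = M p.2 x
    simp only [beta1, AffineMap.coe_sub, AffineMap.coe_add, Pi.sub_apply, Pi.add_apply,
      LinearMap.coe_toAffineMap, sub_eq_zero]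
    exact eq_comm

/-- upper estimate for the number of faces of the order-type polytope -/
lemma count_le {β : J → E →ᵃ[ℝ] ℝ} {m : C → E →ᵃ[ℝ] ℝ} {M : D → E →ᵃ[ℝ] ℝ}
    {τ : E →ₗ[ℝ] ℝ} {e : E} (hτ : τ e = 1) (hβ : ∀ j, (β j).linear e = 0)
    (hm : ∀ c, (m c).linear e = 0) (hM : ∀ d, (M d).linear e = 0) (i : ℕ) :
    Set.ncard {S | ∃ x ∈ Poly (beta2 β m M τ), Tight (beta2 β m M τ) x = S ∧
        finrank ℝ (dirSp (beta2 β m M τ) S) = i} ≤
      Nat.card (↥(codeV β m M i) ⊕ (Σ S : Set J, ↥(CellC m (dirSp β S) (Reg β m M S) (i+1))) ⊕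
        (Σ S : Set J, ↥(CellC (neg' M) (dirSp β S) (Reg β m M S) (i+1))) ⊕
        ↥(codeF β m M (i+1))) := by
  let G : (↥(codeV β m M i) ⊕ (Σ S : Set J, ↥(CellC m (dirSp β S) (Reg β m M S) (i+1))) ⊕
        (Σ S : Set J, ↥(CellC (neg' M) (dirSp β S) (Reg β m M S) (i+1))) ⊕
        ↥(codeF β m M (i+1))) → Set (J ⊕ C ⊕ D) := fun k => match k with
    | Sum.inl S => mk2 S.1 ∅ ∅
    | Sum.inr (Sum.inl p) => mk2 p.1 p.2.1 ∅
    | Sum.inr (Sum.inr (Sum.inl p)) => mk2 p.1 ∅ p.2.1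
    | Sum.inr (Sum.inr (Sum.inr p)) => mk2 p.1.1 p.1.2.1 p.1.2.2
  have hsub : {S | ∃ x ∈ Poly (beta2 β m M τ), Tight (beta2 β m M τ) x = S ∧
        finrank ℝ (dirSp (beta2 β m M τ) S) = i} ⊆ Set.range G := by
    rintro _ ⟨x, hx, rfl, hd⟩
    rw [poly_beta2] at hx
    obtain ⟨hxB, hxm, hxM⟩ := hx
    rw [tight_beta2] at hd ⊢
    have heβ : e ∈ dirSp β (Tight β x) := mem_dirSp.2 fun j _ => hβ j
    have hActm : ∀ c0, m c0 x = τ x → {c | m c x = τ x} = Act m x := by
      intro c0 hc0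
      ext c
      constructor
      · intro hc c'
        have hc' : m c x = τ x := hc
        rw [hc']; exact hxm c'
      · intro hc
        exact le_antisymm (hxm c) (by rw [← hc0]; exact hc c0)
    have hActM : ∀ d0, τ x = M d0 x → {d | τ x = M d x} = Act (neg' M) x := by
      intro d0 hd0
      ext d
      constructor
      · intro hd d'
        have hd' : τ x = M d x := hd
        rw [neg'_apply, neg'_apply, ← hd']
        exact neg_le_neg (hxM d')
      · intro hd
        have := hd d0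
        rw [neg'_apply, neg'_apply] at this
        exact le_antisymm (hxM d) (by rw [hd0]; linarith)
    rcases Set.eq_empty_or_nonempty {c | m c x = τ x} with hA | ⟨c0, hc0⟩
    · rcases Set.eq_empty_or_nonempty {d | τ x = M d x} with hB | ⟨d0, hd0⟩
      · -- vertical
        rw [hA, hB] at hd ⊢
        have hreg : x ∈ Reg β m M (Tight β x) := by
          refine ⟨hxB, rfl, fun c d => ?_⟩
          have h1 : m c x ≠ τ x := fun h => by
            have : c ∈ ({c | m c x = τ x} : Set C) := h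
            rw [hA] at this; exact this
          exact (lt_of_le_of_ne (hxm c) h1).trans_le (hxM d)
        have hdir : dirSp (beta2 β m M τ) (mk2 (Tight β x) ∅ ∅) = dirSp β (Tight β x) := by
          ext v
          rw [mem_dirSp_mk2]
          simp
        rw [hdir] at hd
        exact ⟨Sum.inl ⟨Tight β x, ⟨x, hreg⟩, hd⟩, rfl⟩
      · -- upper
        have hB := hActM d0 hd0
        have hd0' : τ x = M d0 x := hd0
        rw [hA, hB] at hd ⊢
        have hreg : x ∈ Reg β m M (Tight β x) := by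
          refine ⟨hxB, rfl, fun c d => ?_⟩
          have h1 : m c x ≠ τ x := fun h => by
            have : c ∈ ({c | m c x = τ x} : Set C) := h
            rw [hA] at this; exact this
          exact (lt_of_le_of_ne (hxm c) h1).trans_le (hxM d)
        have hdir : dirSp (beta2 β m M τ) (mk2 (Tight β x) ∅ (Act (neg' M) x)) =
            (dirSp β (Tight β x) ⊓ EqDir (neg' M) (Act (neg' M) x)) ⊓
              LinearMap.ker (τ - (M d0).linear) := by
          ext v
          rw [mem_dirSp_mk2, Submodule.mem_inf, Submodule.mem_inf, mem_EqDir, LinearMap.mem_ker,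
            LinearMap.sub_apply, sub_eq_zero]
          rw [hB] at hd0
          constructor
          · rintro ⟨h1, _, h3⟩
            refine ⟨⟨h1, fun d hd d' hd' => ?_⟩, h3 d0 hd0⟩
            rw [neg'_linear, neg'_linear, ← h3 d hd, ← h3 d' hd']
          · rintro ⟨⟨h1, h2⟩, h3⟩
            refine ⟨h1, fun c hc => absurd hc (Set.notMem_empty c), fun d hd => ?_⟩
            have := h2 d hd d0 hd0
            rw [neg'_linear, neg'_linear] at this
            rw [h3]; linarith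
        have he2 : e ∈ dirSp β (Tight β x) ⊓ EqDir (neg' M) (Act (neg' M) x) := by
          refine ⟨heβ, ?_⟩
          rw [SetLike.mem_coe, mem_EqDir]
          intro d _ d' _
          rw [neg'_linear, neg'_linear, hM, hM]
        have hfin := finrank_inf_ker (dirSp β (Tight β x) ⊓ EqDir (neg' M) (Act (neg' M) x))
          (τ - (M d0).linear) he2 (by rw [LinearMap.sub_apply, hτ, hM, sub_zero])
        rw [← hdir, hd] at hfin
        exact ⟨Sum.inr (Sum.inr (Sum.inl ⟨Tight β x, ⟨Act (neg' M) x, hfin.symm, x, hreg, rfl⟩⟩)),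
          rfl⟩
    · have hA := hActm c0 hc0
      have hc0' : m c0 x = τ x := hc0
      rcases Set.eq_empty_or_nonempty {d | τ x = M d x} with hB | ⟨d0, hd0⟩
      · -- lower
        rw [hA, hB] at hd ⊢
        have hreg : x ∈ Reg β m M (Tight β x) := by
          refine ⟨hxB, rfl, fun c d => ?_⟩
          have h1 : τ x ≠ M d x := fun h => by
            have : d ∈ ({d | τ x = M d x} : Set D) := h
            rw [hB] at this; exact this
          exact (hxm c).trans_lt (lt_of_le_of_ne (hxM d) h1)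
        have hdir : dirSp (beta2 β m M τ) (mk2 (Tight β x) (Act m x) ∅) =
            (dirSp β (Tight β x) ⊓ EqDir m (Act m x)) ⊓
              LinearMap.ker (τ - (m c0).linear) := by
          ext v
          rw [mem_dirSp_mk2, Submodule.mem_inf, Submodule.mem_inf, mem_EqDir, LinearMap.mem_ker,
            LinearMap.sub_apply, sub_eq_zero]
          rw [hA] at hc0
          constructor
          · rintro ⟨h1, h3, _⟩
            refine ⟨⟨h1, fun d hd d' hd' => ?_⟩, h3 c0 hc0⟩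
            rw [← h3 d hd, ← h3 d' hd']
          · rintro ⟨⟨h1, h2⟩, h3⟩
            refine ⟨h1, fun d hd => ?_, fun c hc => absurd hc (Set.notMem_empty c)⟩
            rw [h3, h2 d hd c0 hc0]
        have he2 : e ∈ dirSp β (Tight β x) ⊓ EqDir m (Act m x) := by
          refine ⟨heβ, ?_⟩
          rw [SetLike.mem_coe, mem_EqDir]
          intro d _ d' _
          rw [hm, hm]
        have hfin := finrank_inf_ker (dirSp β (Tight β x) ⊓ EqDir m (Act m x))
          (τ - (m c0).linear) he2 (by rw [LinearMap.sub_apply, hτ, hm, sub_zero])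
        rw [← hdir, hd] at hfin
        exact ⟨Sum.inr (Sum.inl ⟨Tight β x, ⟨Act m x, hfin.symm, x, hreg, rfl⟩⟩), rfl⟩
      · -- flat
        have hB := hActM d0 hd0
        have hd0' : τ x = M d0 x := hd0
        have hflat : ∀ c ∈ Act m x, ∀ d ∈ Act (neg' M) x, m c x = M d x := by
          intro c hc d hd
          rw [← hA] at hc
          rw [← hB] at hd
          have h1 : m c x = τ x := hc
          have h2 : τ x = M d x := hd
          rw [h1, h2]
        rw [hA, hB] at hd ⊢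
        have hdir : dirSp (beta2 β m M τ) (mk2 (Tight β x) (Act m x) (Act (neg' M) x)) =
            (dirSp β (Tight β x) ⊓ eqCD m M (Act m x) (Act (neg' M) x)) ⊓
              LinearMap.ker (τ - (m c0).linear) := by
          ext v
          rw [mem_dirSp_mk2, Submodule.mem_inf, Submodule.mem_inf, mem_eqCD, LinearMap.mem_ker,
            LinearMap.sub_apply, sub_eq_zero]
          rw [hA] at hc0
          rw [hB] at hd0
          constructor
          · rintro ⟨h1, h2, h3⟩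
            refine ⟨⟨h1, fun c hc d hd => ?_⟩, h2 c0 hc0⟩
            rw [← h2 c hc, ← h3 d hd]
          · rintro ⟨⟨h1, h2⟩, h3⟩
            refine ⟨h1, fun c hc => ?_, fun d hd => ?_⟩
            · rw [h3, h2 c0 hc0 d0 hd0, h2 c hc d0 hd0]
            · rw [h3, h2 c0 hc0 d hd]
        have he2 : e ∈ dirSp β (Tight β x) ⊓ eqCD m M (Act m x) (Act (neg' M) x) := by
          refine ⟨heβ, ?_⟩
          rw [SetLike.mem_coe, mem_eqCD]
          intro d _ d' _
          rw [hm, hM]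
        have hfin := finrank_inf_ker
          (dirSp β (Tight β x) ⊓ eqCD m M (Act m x) (Act (neg' M) x))
          (τ - (m c0).linear) he2 (by rw [LinearMap.sub_apply, hτ, hm, sub_zero])
        rw [← hdir, hd] at hfin
        exact ⟨Sum.inr (Sum.inr (Sum.inr ⟨(Tight β x, Act m x, Act (neg' M) x),
          ⟨x, hxB, rfl, rfl, rfl, hflat⟩, hfin.symm⟩)), rfl⟩
  refine (Set.ncard_le_ncard hsub (Set.toFinite _)).trans ?_
  rw [← Nat.card_coe_set_eq]
  exact Finite.card_range_le G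

lemma prod_inj {C D : Type*} {A A' : Set C} {B B' : Set D} (hA : A.Nonempty) (hB : B.Nonempty)
    (hA' : A'.Nonempty) (hB' : B'.Nonempty) (h : A ×ˢ B = A' ×ˢ B') : A = A' ∧ B = B' := by
  obtain ⟨a, ha⟩ := hA
  obtain ⟨b, hb⟩ := hB
  obtain ⟨a', ha'⟩ := hA'
  obtain ⟨b', hb'⟩ := hB'
  constructor
  · ext c
    constructor
    · intro hc
      have : (c, b) ∈ A ×ˢ B := ⟨hc, hb⟩
      rw [h] at this; exact this.1
    · intro hc
      have : (c, b') ∈ A' ×ˢ B' := ⟨hc, hb'⟩
      rw [← h] at this; exact this.1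
  · ext c
    constructor
    · intro hc
      have : (a, c) ∈ A ×ˢ B := ⟨ha, hc⟩
      rw [h] at this; exact this.2
    · intro hc
      have : (a', c) ∈ A' ×ˢ B' := ⟨ha', hc⟩
      rw [← h] at this; exact this.2

/-- lower estimate for the number of faces of the chain-type polytope -/
lemma le_count {β : J → E →ᵃ[ℝ] ℝ} {m : C → E →ᵃ[ℝ] ℝ} {M : D → E →ᵃ[ℝ] ℝ}
    {τ : E →ₗ[ℝ] ℝ} {e : E} (hτ : τ e = 1) (hβ : ∀ j, (β j).linear e = 0)
    (hm : ∀ c, (m c).linear e = 0) (hM : ∀ d, (M d).linear e = 0) (i : ℕ) :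
    Nat.card (↥(codeV β m M i) ⊕ ↥(codeV β m M (i+1)) ⊕
        (Σ S : Set J, ↥(CellE m (neg' M) (dirSp β S) (Reg β m M S) (i+1))) ⊕
        ↥(codeF β m M (i+1))) ≤
    Set.ncard {S | ∃ x ∈ Poly (beta1 β m M τ), Tight (beta1 β m M τ) x = S ∧
        finrank ℝ (dirSp (beta1 β m M τ) S) = i} := by
  classical
  -- moving in direction `e`
  have hβe : ∀ (y : E) (t : ℝ) j, β j (y + t • e) = β j y := fun y t j => by
    rw [aff_add_smul, hβ, mul_zero, add_zero]
  have hme : ∀ (y : E) (t : ℝ) c, m c (y + t • e) = m c y := fun y t j => by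
    rw [aff_add_smul, hm, mul_zero, add_zero]
  have hMe : ∀ (y : E) (t : ℝ) d, M d (y + t • e) = M d y := fun y t j => by
    rw [aff_add_smul, hM, mul_zero, add_zero]
  have hlift : ∀ y ∈ Poly β, ∀ s : ℝ, 0 ≤ s → (∀ c d, s + m c y ≤ M d y) →
      ∃ x ∈ Poly (beta1 β m M τ), Tight (beta1 β m M τ) x =
        mk1 (Tight β y) (s = 0) {p | s + m p.1 y = M p.2 y} := by
    intro y hy s hs hsm
    have hτx : τ (y + (s - τ y) • e) = s := by
      rw [map_add, map_smul, hτ, smul_eq_mul, mul_one]; ring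
    refine ⟨y + (s - τ y) • e, ?_, ?_⟩
    · rw [poly_beta1, hτx]
      refine ⟨fun j => by rw [hβe]; exact hy j, hs, fun c d => ?_⟩
      rw [hme, hMe]; exact hsm c d
    · rw [tight_beta1, hτx]
      have h1 : Tight β (y + (s - τ y) • e) = Tight β y := by
        ext j
        show β j (y + (s - τ y) • e) = 0 ↔ β j y = 0
        rw [hβe]
      have h2 : {p : C × D | s + m p.1 (y + (s - τ y) • e) = M p.2 (y + (s - τ y) • e)} =
          {p | s + m p.1 y = M p.2 y} := by
        ext p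
        show s + m p.1 (y + (s - τ y) • e) = M p.2 (y + (s - τ y) • e) ↔ s + m p.1 y = M p.2 y
        rw [hme, hMe]
      rw [h1, h2]
  have heβ : ∀ S, e ∈ dirSp β S := fun S => mem_dirSp.2 fun j _ => hβ j
  -- the gap function attains its minimum on active pairs
  have hActN : ∀ y, (Act (neg' M) y).Nonempty := fun y => Act_nonempty _ y
  have hActm : ∀ y, (Act m y).Nonempty := fun y => Act_nonempty _ y
  have hmin : ∀ y, ∀ c0 ∈ Act m y, ∀ d0 ∈ Act (neg' M) y, ∀ c d,
      M d0 y - m c0 y ≤ M d y - m c y := by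
    intro y c0 hc0 d0 hd0 c d
    have h1 := hc0 c
    have h2 := hd0 d
    rw [neg'_apply, neg'_apply] at h2
    linarith
  have hpairs : ∀ y, ∀ c0 ∈ Act m y, ∀ d0 ∈ Act (neg' M) y,
      {p : C × D | (M d0 y - m c0 y) + m p.1 y = M p.2 y} = Act m y ×ˢ Act (neg' M) y := by
    intro y c0 hc0 d0 hd0
    ext ⟨c, d⟩
    constructor
    · intro h
      have h' : (M d0 y - m c0 y) + m c y = M d y := h
      have h1 := hc0 c
      have h2 := hd0 d
      rw [neg'_apply, neg'_apply] at h2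
      refine ⟨fun c' => ?_, fun d' => ?_⟩
      · have := hc0 c'
        show m c' y ≤ m c y
        linarith
      · have := hd0 d'
        rw [neg'_apply, neg'_apply] at this
        show neg' M d' y ≤ neg' M d y
        rw [neg'_apply, neg'_apply]
        linarith
    · rintro ⟨hc, hd⟩
      have h1 := hc0 c
      have h2 := hd0 d
      have h3 : m c0 y ≤ m c y := hc c0
      have h4 : neg' M d0 y ≤ neg' M d y := hd d0
      rw [neg'_apply, neg'_apply] at h2 h4
      show (M d0 y - m c0 y) + m c y = M d y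
      linarith
  -- the code map
  let G : (↥(codeV β m M i) ⊕ ↥(codeV β m M (i+1)) ⊕
        (Σ S : Set J, ↥(CellE m (neg' M) (dirSp β S) (Reg β m M S) (i+1))) ⊕
        ↥(codeF β m M (i+1))) → Set (J ⊕ Unit ⊕ C × D) := fun k => match k with
    | Sum.inl S => mk1 S.1 False ∅
    | Sum.inr (Sum.inl S) => mk1 S.1 True ∅
    | Sum.inr (Sum.inr (Sum.inl p)) => mk1 p.1 False (p.2.1.1 ×ˢ p.2.1.2)
    | Sum.inr (Sum.inr (Sum.inr p)) => mk1 p.1.1 True (p.1.2.1 ×ˢ p.1.2.2)
  have hmem : ∀ k, G k ∈ {S | ∃ x ∈ Poly (beta1 β m M τ), Tight (beta1 β m M τ) x = S ∧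
        finrank ℝ (dirSp (beta1 β m M τ) S) = i} := by
    rintro (⟨S, ⟨y, hy, rfl, hgap⟩, hdim⟩ | ⟨S, ⟨y, hy, rfl, hgap⟩, hdim⟩ |
      ⟨S, ⟨⟨A, B⟩, hdim, y, ⟨hy, rfl, hgap⟩, hA, hB⟩⟩ | ⟨⟨S, A, B⟩, ⟨y, hy, hS, hA, hB, hflat⟩, hdim⟩)
    · -- vertical
      obtain ⟨c0, hc0⟩ := hActm y
      obtain ⟨d0, hd0⟩ := hActN y
      have hpos : 0 < M d0 y - m c0 y := sub_pos.2 (hgap c0 d0)
      obtain ⟨x, hx, hxt⟩ := hlift y hy ((M d0 y - m c0 y) / 2) (by linarith) (fun c d => by
        have := hmin y c0 hc0 d0 hd0 c d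
        linarith)
      refine ⟨x, hx, ?_, ?_⟩
      · rw [hxt]
        show _ = mk1 (Tight β y) False ∅
        have h1 : ((M d0 y - m c0 y) / 2 = 0) = False := by
          apply propext
          constructor
          · intro h; linarith
          · exact False.elim
        have h2 : {p : C × D | (M d0 y - m c0 y) / 2 + m p.1 y = M p.2 y} = ∅ := by
          ext p
          constructor
          · intro h
            have h' : (M d0 y - m c0 y) / 2 + m p.1 y = M p.2 y := h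
            have := hmin y c0 hc0 d0 hd0 p.1 p.2
            exfalso; linarith
          · intro h; exact absurd h (Set.notMem_empty p)
        rw [h1, h2]
      · show finrank ℝ (dirSp (beta1 β m M τ) (mk1 (Tight β y) False ∅)) = i
        have hdir : dirSp (beta1 β m M τ) (mk1 (Tight β y) False ∅) = dirSp β (Tight β y) := by
          ext v
          rw [mem_dirSp_mk1]
          simp
        rw [hdir]; exact hdim
    · -- lower
      obtain ⟨x, hx, hxt⟩ := hlift y hy 0 le_rfl (fun c d => by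
        have := hgap c d
        linarith)
      refine ⟨x, hx, ?_, ?_⟩
      · rw [hxt]
        show _ = mk1 (Tight β y) True ∅
        have h1 : ((0:ℝ) = 0) = True := by simp
        have h2 : {p : C × D | 0 + m p.1 y = M p.2 y} = ∅ := by
          ext p
          constructor
          · intro h
            have h' : 0 + m p.1 y = M p.2 y := h
            have := hgap p.1 p.2
            exfalso; linarith
          · intro h; exact absurd h (Set.notMem_empty p)
        rw [h1, h2]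
      · show finrank ℝ (dirSp (beta1 β m M τ) (mk1 (Tight β y) True ∅)) = i
        have hdir : dirSp (beta1 β m M τ) (mk1 (Tight β y) True ∅) =
            dirSp β (Tight β y) ⊓ LinearMap.ker τ := by
          ext v
          rw [mem_dirSp_mk1]
          simp
        have hfin := finrank_inf_ker (dirSp β (Tight β y)) τ (heβ _) hτ
        rw [hdir]
        omega
    · -- upper
      have hA' : Act m y = A := hA
      have hB' : Act (neg' M) y = B := hB
      subst hA'
      subst hB'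
      obtain ⟨c0, hc0⟩ := hActm y
      obtain ⟨d0, hd0⟩ := hActN y
      have hpos : 0 < M d0 y - m c0 y := sub_pos.2 (hgap c0 d0)
      obtain ⟨x, hx, hxt⟩ := hlift y hy (M d0 y - m c0 y) (by linarith) (fun c d => by
        have := hmin y c0 hc0 d0 hd0 c d
        linarith)
      refine ⟨x, hx, ?_, ?_⟩
      · rw [hxt]
        show _ = mk1 (Tight β y) False (Act m y ×ˢ Act (neg' M) y)
        have h1 : (M d0 y - m c0 y = 0) = False := by
          apply propext
          constructor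
          · intro h; linarith
          · exact False.elim
        rw [h1, hpairs y c0 hc0 d0 hd0]
      · show finrank ℝ (dirSp (beta1 β m M τ)
          (mk1 (Tight β y) False (Act m y ×ˢ Act (neg' M) y))) = i
        have hdir : dirSp (beta1 β m M τ) (mk1 (Tight β y) False (Act m y ×ˢ Act (neg' M) y)) =
            (dirSp β (Tight β y) ⊓ EqDir m (Act m y) ⊓ EqDir (neg' M) (Act (neg' M) y)) ⊓
              LinearMap.ker (τ + (m c0).linear - (M d0).linear) := by
          ext v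
          rw [mem_dirSp_mk1, Submodule.mem_inf, Submodule.mem_inf, Submodule.mem_inf, mem_EqDir,
            mem_EqDir, LinearMap.mem_ker, LinearMap.sub_apply, LinearMap.add_apply, sub_eq_zero]
          constructor
          · rintro ⟨h1, _, h3⟩
            refine ⟨⟨⟨h1, fun c hc c' hc' => ?_⟩, fun d hd d' hd' => ?_⟩, h3 (c0, d0) ⟨hc0, hd0⟩⟩
            · have e1 := h3 (c, d0) ⟨hc, hd0⟩
              have e2 := h3 (c', d0) ⟨hc', hd0⟩
              simp only at e1 e2
              linarith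
            · have e1 := h3 (c0, d) ⟨hc0, hd⟩
              have e2 := h3 (c0, d') ⟨hc0, hd'⟩
              rw [neg'_linear, neg'_linear]
              simp only at e1 e2
              linarith
          · rintro ⟨⟨⟨h1, h2⟩, h3⟩, h4⟩
            refine ⟨h1, fun h => h.elim, ?_⟩
            rintro ⟨c, d⟩ ⟨hc, hd⟩
            have e1 := h2 c hc c0 hc0
            have e2 := h3 d hd d0 hd0
            rw [neg'_linear, neg'_linear] at e2
            show τ v + (m c).linear v = (M d).linear v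
            linarith
        have he2 : e ∈ dirSp β (Tight β y) ⊓ EqDir m (Act m y) ⊓
            EqDir (neg' M) (Act (neg' M) y) := by
          refine ⟨⟨heβ _, ?_⟩, ?_⟩
          · rw [SetLike.mem_coe, mem_EqDir]
            intro d _ d' _
            rw [hm, hm]
          · rw [SetLike.mem_coe, mem_EqDir]
            intro d _ d' _
            rw [neg'_linear, neg'_linear, hM, hM]
        have hfin := finrank_inf_ker (dirSp β (Tight β y) ⊓ EqDir m (Act m y) ⊓
            EqDir (neg' M) (Act (neg' M) y))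
          (τ + (m c0).linear - (M d0).linear) he2 (by
            rw [LinearMap.sub_apply, LinearMap.add_apply, hτ, hm, hM, add_zero, sub_zero])
        rw [hdir]
        have hdim' : finrank ℝ ↥(dirSp β (Tight β y) ⊓ EqDir m (Act m y) ⊓
            EqDir (neg' M) (Act (neg' M) y)) = i + 1 := hdim
        omega
    · -- flat
      have hS' : Tight β y = S := hS
      have hA' : Act m y = A := hA
      have hB' : Act (neg' M) y = B := hB
      subst hS'
      subst hA'
      subst hB'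
      obtain ⟨c0, hc0⟩ := hActm y
      obtain ⟨d0, hd0⟩ := hActN y
      have h00 : m c0 y = M d0 y := hflat c0 hc0 d0 hd0
      obtain ⟨x, hx, hxt⟩ := hlift y hy 0 le_rfl (fun c d => by
        have := hmin y c0 hc0 d0 hd0 c d
        linarith)
      refine ⟨x, hx, ?_, ?_⟩
      · rw [hxt]
        show _ = mk1 (Tight β y) True (Act m y ×ˢ Act (neg' M) y)
        have h1 : ((0:ℝ) = 0) = True := by simp
        have h2 := hpairs y c0 hc0 d0 hd0
        rw [h00, sub_self] at h2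
        rw [h1, h2]
      · show finrank ℝ (dirSp (beta1 β m M τ)
          (mk1 (Tight β y) True (Act m y ×ˢ Act (neg' M) y))) = i
        have hdir : dirSp (beta1 β m M τ) (mk1 (Tight β y) True (Act m y ×ˢ Act (neg' M) y)) =
            (dirSp β (Tight β y) ⊓ eqCD m M (Act m y) (Act (neg' M) y)) ⊓
              LinearMap.ker τ := by
          ext v
          rw [mem_dirSp_mk1, Submodule.mem_inf, Submodule.mem_inf, mem_eqCD, LinearMap.mem_ker]
          constructor
          · rintro ⟨h1, h2, h3⟩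
            have h2' := h2 trivial
            refine ⟨⟨h1, fun c hc d hd => ?_⟩, h2'⟩
            have := h3 (c, d) ⟨hc, hd⟩
            simp only at this
            linarith
          · rintro ⟨⟨h1, h2⟩, h3⟩
            refine ⟨h1, fun _ => h3, ?_⟩
            rintro ⟨c, d⟩ ⟨hc, hd⟩
            show τ v + (m c).linear v = (M d).linear v
            rw [h3, h2 c hc d hd, zero_add]
        have he2 : e ∈ dirSp β (Tight β y) ⊓ eqCD m M (Act m y) (Act (neg' M) y) := by
          refine ⟨heβ _, ?_⟩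
          rw [SetLike.mem_coe, mem_eqCD]
          intro d _ d' _
          rw [hm, hM]
        have hfin := finrank_inf_ker (dirSp β (Tight β y) ⊓ eqCD m M (Act m y) (Act (neg' M) y))
          τ he2 hτ
        rw [hdir]
        have hdim' : finrank ℝ ↥(dirSp β (Tight β y) ⊓
          eqCD m M (Act m y) (Act (neg' M) y)) = i + 1 := hdim
        omega
  have hinj : Function.Injective G := by
    rintro (⟨S, hS⟩ | ⟨S, hS⟩ | ⟨S, ⟨⟨A, B⟩, hp⟩⟩ | ⟨⟨S, A, B⟩, hp⟩)
      (⟨S', hS'⟩ | ⟨S', hS'⟩ | ⟨S', ⟨⟨A', B'⟩, hp'⟩⟩ | ⟨⟨S', A', B'⟩, hp'⟩) h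
    · obtain ⟨h1, _, _⟩ := mk1_inj h
      have h1 : S = S' := h1
      subst h1; rfl
    · exact absurd (mk1_inj h).2.1 (by simp)
    · exfalso
      obtain ⟨_, y, _, hA, hB⟩ := hp'
      have hA : Act m y = A' := hA
      have hB : Act (neg' M) y = B' := hB
      have h3 : (∅ : Set (C × D)) = A' ×ˢ B' := (mk1_inj h).2.2
      obtain ⟨c0, hc0⟩ := hActm y
      obtain ⟨d0, hd0⟩ := hActN y
      have : (c0, d0) ∈ (∅ : Set (C × D)) := by
        rw [h3, ← hA, ← hB]; exact ⟨hc0, hd0⟩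
      exact this
    · exact absurd (mk1_inj h).2.1 (by simp)
    · exact absurd (mk1_inj h).2.1 (by simp)
    · obtain ⟨h1, _, _⟩ := mk1_inj h
      have h1 : S = S' := h1
      subst h1; rfl
    · exact absurd (mk1_inj h).2.1 (by simp)
    · exfalso
      obtain ⟨⟨y, _, _, hA, hB, _⟩, _⟩ := hp'
      have hA : Act m y = A' := hA
      have hB : Act (neg' M) y = B' := hB
      have h3 : (∅ : Set (C × D)) = A' ×ˢ B' := (mk1_inj h).2.2
      obtain ⟨c0, hc0⟩ := hActm y
      obtain ⟨d0, hd0⟩ := hActN y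
      have : (c0, d0) ∈ (∅ : Set (C × D)) := by
        rw [h3, ← hA, ← hB]; exact ⟨hc0, hd0⟩
      exact this
    · exfalso
      obtain ⟨_, y, _, hA, hB⟩ := hp
      have hA : Act m y = A := hA
      have hB : Act (neg' M) y = B := hB
      have h3 : A ×ˢ B = (∅ : Set (C × D)) := (mk1_inj h).2.2
      obtain ⟨c0, hc0⟩ := hActm y
      obtain ⟨d0, hd0⟩ := hActN y
      have : (c0, d0) ∈ (∅ : Set (C × D)) := by
        rw [← h3, ← hA, ← hB]; exact ⟨hc0, hd0⟩
      exact this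
    · exact absurd (mk1_inj h).2.1 (by simp)
    · obtain ⟨h1, _, h3⟩ := mk1_inj h
      have h1 : S = S' := h1
      have h3 : A ×ˢ B = A' ×ˢ B' := h3
      obtain ⟨hd, y, hy, hA, hB⟩ := hp
      obtain ⟨hd', y', hy', hA', hB'⟩ := hp'
      have hAA : Act m y = A := hA
      have hBB : Act (neg' M) y = B := hB
      have hAA' : Act m y' = A' := hA'
      have hBB' : Act (neg' M) y' = B' := hB'
      obtain ⟨e1, e2⟩ := prod_inj (hAA ▸ hActm y) (hBB ▸ hActN y) (hAA' ▸ hActm y')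
        (hBB' ▸ hActN y') h3
      subst h1
      subst e1
      subst e2
      rfl
    · exact absurd (mk1_inj h).2.1 (by simp)
    · exact absurd (mk1_inj h).2.1 (by simp)
    · exfalso
      obtain ⟨⟨y, _, _, hA, hB, _⟩, _⟩ := hp
      have hA : Act m y = A := hA
      have hB : Act (neg' M) y = B := hB
      have h3 : A ×ˢ B = (∅ : Set (C × D)) := (mk1_inj h).2.2
      obtain ⟨c0, hc0⟩ := hActm y
      obtain ⟨d0, hd0⟩ := hActN y
      have : (c0, d0) ∈ (∅ : Set (C × D)) := by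
        rw [← h3, ← hA, ← hB]; exact ⟨hc0, hd0⟩
      exact this
    · exact absurd (mk1_inj h).2.1 (by simp)
    · obtain ⟨h1, _, h3⟩ := mk1_inj h
      have h1 : S = S' := h1
      have h3 : A ×ˢ B = A' ×ˢ B' := h3
      obtain ⟨⟨y, hy, hS, hA, hB, _⟩, _⟩ := hp
      obtain ⟨⟨y', hy', hS', hA', hB', _⟩, _⟩ := hp'
      have hAA : Act m y = A := hA
      have hBB : Act (neg' M) y = B := hB
      have hAA' : Act m y' = A' := hA'
      have hBB' : Act (neg' M) y' = B' := hB'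
      obtain ⟨e1, e2⟩ := prod_inj (hAA ▸ hActm y) (hBB ▸ hActN y) (hAA' ▸ hActm y')
        (hBB' ▸ hActN y') h3
      subst h1
      subst e1
      subst e2
      rfl
  rw [← Nat.card_coe_set_eq]
  exact Nat.card_le_card_of_injective (fun k => ⟨G k, hmem k⟩)
    (fun a b h => hinj (Subtype.ext_iff.1 h))

/-- **Abstract step**: `f_i` of `{m ≤ τ ≤ M}` is at most `f_i` of `{0 ≤ τ ≤ M - m}`. -/
theorem abstract_step {β : J → E →ᵃ[ℝ] ℝ} {m : C → E →ᵃ[ℝ] ℝ} {M : D → E →ᵃ[ℝ] ℝ}
    {τ : E →ₗ[ℝ] ℝ} {e : E} (hτ : τ e = 1) (hβ : ∀ j, (β j).linear e = 0)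
    (hm : ∀ c, (m c).linear e = 0) (hM : ∀ d, (M d).linear e = 0)
    (hT : ∀ y ∈ Poly β, (∀ c d, m c y < M d y) → ∀ v ∈ dirSp β (Tight β y),
      ∃ w ∈ dirSp β (Tight β y), (∀ c, (m c).linear w = 0) ∧
        ∀ d, (M d).linear w = (M d).linear v) (i : ℕ) :
    faceCount {x | x ∈ Poly β ∧ (∀ c, m c x ≤ τ x) ∧ ∀ d, τ x ≤ M d x} i ≤
      faceCount {x | x ∈ Poly β ∧ 0 ≤ τ x ∧ ∀ c d, τ x + m c x ≤ M d x} i := by
  classical
  have h2 : {x | x ∈ Poly β ∧ (∀ c, m c x ≤ τ x) ∧ ∀ d, τ x ≤ M d x} = Poly (beta2 β m M τ) := by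
    ext x; exact (poly_beta2 β m M τ x).symm
  have h1 : {x | x ∈ Poly β ∧ 0 ≤ τ x ∧ ∀ c d, τ x + m c x ≤ M d x} = Poly (beta1 β m M τ) := by
    ext x; exact (poly_beta1 β m M τ x).symm
  rw [h1, h2, faceCount_poly, faceCount_poly]
  refine (count_le hτ hβ hm hM i).trans (le_trans ?_ (le_count hτ hβ hm hM i))
  have := Fintype.ofFinite J
  have hcore : ∀ S : Set J, Nat.card ↥(CellC m (dirSp β S) (Reg β m M S) (i+1)) +
      Nat.card ↥(CellC (neg' M) (dirSp β S) (Reg β m M S) (i+1)) ≤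
      (if (Reg β m M S).Nonempty ∧ finrank ℝ (dirSp β S) = i + 1 then 1 else 0) +
      Nat.card ↥(CellE m (neg' M) (dirSp β S) (Reg β m M S) (i+1)) := by
    intro S
    rw [Nat.card_coe_set_eq, Nat.card_coe_set_eq, Nat.card_coe_set_eq]
    refine core_count (region_Reg β m M S) ?_ (i+1)
    rintro ⟨y, hy, rfl, hgap⟩ v hv
    obtain ⟨w, hw, hw1, hw2⟩ := hT y hy hgap v hv
    refine ⟨w, hw, hw1, fun d => ?_⟩
    rw [neg'_linear, neg'_linear, hw2]
  have hV : Nat.card ↥(codeV β m M (i+1)) =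
      ∑ S : Set J, (if (Reg β m M S).Nonempty ∧ finrank ℝ (dirSp β S) = i + 1 then 1 else 0) := by
    rw [Nat.card_coe_set_eq, Set.ncard_eq_toFinset_card', ← Finset.card_filter]
    congr 1
    ext S
    rw [Set.mem_toFinset, Finset.mem_filter]
    exact ⟨fun h => ⟨Finset.mem_univ _, h⟩, fun h => h.2⟩
  rw [Nat.card_sum, Nat.card_sum, Nat.card_sum, Nat.card_sum, Nat.card_sum, Nat.card_sum,
    Nat.card_sigma, Nat.card_sigma, Nat.card_sigma, hV]
  have hsum := Finset.sum_le_sum (s := (Finset.univ : Finset (Set J))) (fun S _ => hcore S)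
  rw [Finset.sum_add_distrib, Finset.sum_add_distrib] at hsum
  omega

end Step

end Pool.Agent.MCO
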