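import Mathlib
import Pool.Agent.MCO.Faces

/-!
# Face numbers of marked chain-order polytopes: the poset part
-/

namespace Pool.Agent.MCO

open Set Filter Topology Module

set_option linter.unusedSectionVars false

section Poset

variable {P : Type*} [PartialOrder P]

/-- valid chain constraints -/
def Valid (A U₁ U₂ : Set P) (b : P) (c : Finset P) (a : P) : Prop :=
  a ∈ A ∪ U₁ ∧ b ∈ A ∪ U₁ ∧ (c : Set P) ⊆ U₂ ∧ IsChain (· ≤ ·) (c : Set P) ∧
    (∀ p ∈ c, b < p ∧ p < a) ∧ b < a ∧ ¬ (c = ∅ ∧ a ∈ A ∧ b ∈ A)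

lemma mu_mem {A : Set P} {lam : A → ℝ} {x : {p : P // p ∉ A} → ℝ} {r : P} (h : r ∈ A) :
    mu A lam x r = lam ⟨r, h⟩ := by
  simp [mu, h]

lemma mu_notMem {A : Set P} {lam : A → ℝ} {x : {p : P // p ∉ A} → ℝ} {r : P} (h : r ∉ A) :
    mu A lam x r = x ⟨r, h⟩ := by
  simp [mu, h]

lemma exists_min_below [Finite P] {A : Set P} (hA : ∀ p : P, IsMin p ∨ IsMax p → p ∈ A) (p : P)
    (hp : p ∉ A) : ∃ b ∈ A, b < p := by
  obtain ⟨b, hb, hbmin⟩ := Set.Finite.exists_minimal (s := {q : P | q ≤ p}) (Set.toFinite _)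
    ⟨p, le_refl p⟩
  have hmin : IsMin b := by
    intro q hq
    exact hbmin (le_trans hq hb : q ≤ p) hq
  have hbA := hA b (Or.inl hmin)
  exact ⟨b, hbA, lt_of_le_of_ne hb (fun h => hp (h ▸ hbA))⟩

lemma exists_max_above [Finite P] {A : Set P} (hA : ∀ p : P, IsMin p ∨ IsMax p → p ∈ A) (p : P)
    (hp : p ∉ A) : ∃ b ∈ A, p < b := by
  obtain ⟨b, hb, hbmax⟩ := Set.Finite.exists_maximal (s := {q : P | p ≤ q}) (Set.toFinite _)
    ⟨p, le_refl p⟩
  have hmax : IsMax b := by
    intro q hq
    exact hbmax (le_trans hb hq : p ≤ q) hq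
  have hbA := hA b (Or.inr hmax)
  exact ⟨b, hbA, lt_of_le_of_ne hb (fun h => hp (h ▸ hbA))⟩

/-- reduced description of the marked chain-order polytope -/
lemma mem_CO_iff [Finite P] {A : Set P} (hA : ∀ p : P, IsMin p ∨ IsMax p → p ∈ A) {lam : A → ℝ}
    (hlam : ∀ a, 0 ≤ lam a) {U₁ U₂ : Set P} (hU : IsAdmissible A U₁ U₂)
    (x : {p : P // p ∉ A} → ℝ) :
    x ∈ CO A lam U₁ U₂ ↔ (∀ p ∈ U₂, 0 ≤ mu A lam x p) ∧
      ∀ b c a, Valid A U₁ U₂ b c a →
        mu A lam x b + ∑ p ∈ c, mu A lam x p ≤ mu A lam x a := by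
  classical
  constructor
  · rintro ⟨h1, h2, h3, h4, h5, h6⟩
    refine ⟨h1, ?_⟩
    rintro b c a ⟨ha, hb, hc, hch, hcba, hba, hne⟩
    rcases c.eq_empty_or_nonempty with rfl | hcne
    · rw [Finset.sum_empty, add_zero]
      rcases ha with ha | ha
      · rcases hb with hb | hb
        · exact absurd ⟨rfl, ha, hb⟩ hne
        · exact h3 b hb a ha hba
      · rcases hb with hb | hb
        · exact h4 a ha b hb hba
        · exact h2 b hb a ha hba
    · have := h6 a ha b hb c hcne hc hch hcba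
      linarith
  · rintro ⟨h1, h2⟩
    have h6 : ∀ a ∈ A ∪ U₁, ∀ b ∈ A ∪ U₁, ∀ c : Finset P, c.Nonempty → (c : Set P) ⊆ U₂ →
        IsChain (· ≤ ·) (c : Set P) → (∀ p ∈ c, b < p ∧ p < a) →
        ∑ p ∈ c, mu A lam x p ≤ mu A lam x a - mu A lam x b := by
      intro a ha b hb c hcne hc hch hcba
      obtain ⟨p, hp⟩ := id hcne
      have := h2 b c a ⟨ha, hb, hc, hch, hcba, (hcba p hp).1.trans (hcba p hp).2,
        fun h => hcne.ne_empty h.1⟩
      linarith
    have hcoe : ((∅ : Finset P) : Set P) ⊆ U₂ := by simp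
    have hch0 : IsChain (· ≤ ·) ((∅ : Finset P) : Set P) := by simp
    have hdisj : ∀ p, p ∈ U₁ → p ∉ A := fun p hp => by
      have : p ∈ Aᶜ := by rw [← hU.union_eq]; exact Or.inl hp
      exact this
    refine ⟨h1, ?_, ?_, ?_, ?_, h6⟩
    · intro p hp q hq hpq
      have := h2 p ∅ q ⟨Or.inr hq, Or.inr hp, hcoe, hch0, by simp, hpq, fun h => hdisj q hq h.2.1⟩
      simpa using this
    · intro p hp a ha hpa
      have := h2 p ∅ a ⟨Or.inl ha, Or.inr hp, hcoe, hch0, by simp, hpa, fun h => hdisj p hp h.2.2⟩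
      simpa using this
    · intro q hq b hb hbq
      have := h2 b ∅ q ⟨Or.inr hq, Or.inl hb, hcoe, hch0, by simp, hbq, fun h => hdisj q hq h.2.1⟩
      simpa using this
    · intro q hq c hcne hc hch hcq
      obtain ⟨s, hs⟩ := (c : Set P).toFinite.exists_minimal (by simpa using hcne)
      have hsc : s ∈ c := by simpa using hs.1
      have hsU : s ∈ U₂ := hc hs.1
      have hsA : s ∉ A := by
        have : s ∈ Aᶜ := by rw [← hU.union_eq]; exact Or.inr hsU
        exact this
      obtain ⟨b, hb, hbs⟩ := exists_min_below hA s hsA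
      have hball : ∀ p ∈ c, b < p := by
        intro p hp
        rcases eq_or_ne p s with rfl | hne
        · exact hbs
        · rcases hch (by simpa using hp) hs.1 hne with h | h
          · exact hbs.trans_le (hs.2 (by simpa using hp) h)
          · exact hbs.trans_le h
      have := h6 q (Or.inr hq) b (Or.inl hb) c hcne hc hch (fun p hp => ⟨hball p hp, hcq p hp⟩)
      have hb0 : 0 ≤ mu A lam x b := by rw [mu_mem hb]; exact hlam _
      linarith

open Classical in
/-- linear coordinate functional (zero on marked elements) -/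
noncomputable def pr (A : Set P) (r : P) : ({p : P // p ∉ A} → ℝ) →ₗ[ℝ] ℝ :=
  if h : r ∈ A then 0 else LinearMap.proj ⟨r, h⟩

open Classical in
/-- evaluation `x ↦ μ_r(x)` as an affine map -/
noncomputable def ev (A : Set P) (lam : A → ℝ) (r : P) : ({p : P // p ∉ A} → ℝ) →ᵃ[ℝ] ℝ :=
  AffineMap.const ℝ _ (if h : r ∈ A then lam ⟨r, h⟩ else 0) + (pr A r).toAffineMap

lemma ev_apply (A : Set P) (lam : A → ℝ) (r : P) (x : {p : P // p ∉ A} → ℝ) :
    ev A lam r x = mu A lam x r := by
  by_cases h : r ∈ A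
  · simp [ev, pr, mu, h]
  · simp [ev, pr, mu, h]

lemma ev_linear (A : Set P) (lam : A → ℝ) (r : P) : (ev A lam r).linear = pr A r := by
  simp [ev]

/-- sum of coordinates along `c` -/
noncomputable def Lc (A : Set P) (c : Finset P) : ({p : P // p ∉ A} → ℝ) →ₗ[ℝ] ℝ :=
  ∑ r ∈ c, pr A r

lemma pr_apply_notMem {A : Set P} {r : P} (h : r ∉ A) (x : {p : P // p ∉ A} → ℝ) :
    pr A r x = x ⟨r, h⟩ := by
  simp [pr, h]

lemma pr_apply_mem {A : Set P} {r : P} (h : r ∈ A) (x : {p : P // p ∉ A} → ℝ) :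
    pr A r x = 0 := by
  simp [pr, h]

lemma Lc_apply {A : Set P} {lam : A → ℝ} {c : Finset P} (hc : (c : Set P) ⊆ Aᶜ)
    (x : {p : P // p ∉ A} → ℝ) : Lc A c x = ∑ r ∈ c, mu A lam x r := by
  rw [Lc, LinearMap.sum_apply]
  refine Finset.sum_congr rfl fun r hr => ?_
  have h : r ∉ A := hc (by simpa using hr)
  rw [pr_apply_notMem h, mu_notMem h]

/-- telescoping along a chain -/
lemma telescope [DecidableLT P] (f : P → ℝ) (s0 : ℝ) (F : ℝ → ℝ) (c : Finset P) :
    IsChain (· ≤ ·) (c : Set P) →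
    ∑ t ∈ c, (F (s0 + ∑ s ∈ c.filter (· < t), f s + f t) - F (s0 + ∑ s ∈ c.filter (· < t), f s)) =
      F (s0 + ∑ s ∈ c, f s) - F s0 := by
  classical
  induction c using Finset.strongInduction with
  | H c ih =>
    intro hch
    rcases c.eq_empty_or_nonempty with rfl | hne
    · simp
    · obtain ⟨t0, ht0⟩ := (c : Set P).toFinite.exists_maximal (by simpa using hne)
      have ht0c : t0 ∈ c := by simpa using ht0.1
      have hlt : ∀ s ∈ c, s ≠ t0 → s < t0 := by
        intro s hs hne
        rcases hch (by simpa using hs) ht0.1 hne with h | h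
        · exact lt_of_le_of_ne h hne
        · exact absurd (le_antisymm (ht0.2 (by simpa using hs) h) h) hne
      have h1 := ih (c.erase t0) (Finset.erase_ssubset ht0c) (hch.mono (by
        intro s hs
        simp only [Finset.coe_erase] at hs
        exact hs.1))
      rw [← Finset.sum_erase_add _ _ ht0c]
      have h2 : c.filter (· < t0) = c.erase t0 := by
        ext s
        simp only [Finset.mem_filter, Finset.mem_erase]
        constructor
        · rintro ⟨h, h'⟩; exact ⟨h'.ne, h⟩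
        · rintro ⟨h, h'⟩; exact ⟨h', hlt s h' h⟩
      have h3 : ∀ t ∈ c.erase t0, c.filter (· < t) = (c.erase t0).filter (· < t) := by
        intro t ht
        ext s
        simp only [Finset.mem_filter, Finset.mem_erase]
        constructor
        · rintro ⟨h, h'⟩
          refine ⟨⟨?_, h⟩, h'⟩
          rintro rfl
          have := hlt t (Finset.mem_of_mem_erase ht) (Finset.ne_of_mem_erase ht)
          exact lt_asymm this h'
        · rintro ⟨⟨_, h⟩, h'⟩; exact ⟨h, h'⟩
      rw [Finset.sum_congr rfl (fun t ht => by rw [h3 t ht]), h1, h2,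
        ← Finset.sum_erase_add _ _ ht0c, ← add_assoc]
      ring

/-- pairs (mark, chain in `V`) below `t` -/
def Gset (A V : Set P) (t : P) : Set (P × Finset P) :=
  {k | k.1 ∈ A ∧ (k.2 : Set P) ⊆ V ∧ IsChain (· ≤ ·) (k.2 : Set P) ∧
    (∀ s ∈ k.2, k.1 < s ∧ s < t) ∧ k.1 < t}

/-- maximal value of a chain strictly below `t` -/
noncomputable def G (A : Set P) (lam : A → ℝ) (V : Set P) (x : {p : P // p ∉ A} → ℝ) (t : P) : ℝ :=
  sSup ((fun k : P × Finset P => mu A lam x k.1 + ∑ s ∈ k.2, mu A lam x s) '' Gset A V t)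

lemma le_G [Finite P] {A : Set P} {lam : A → ℝ} {V : Set P} {x : {p : P // p ∉ A} → ℝ} {t : P}
    {k : P × Finset P} (hk : k ∈ Gset A V t) :
    mu A lam x k.1 + ∑ s ∈ k.2, mu A lam x s ≤ G A lam V x t :=
  le_csSup (Set.Finite.bddAbove (Set.toFinite _)) ⟨k, hk, rfl⟩

lemma G_le {A : Set P} {lam : A → ℝ} {V : Set P} {x : {p : P // p ∉ A} → ℝ} {t : P} {r : ℝ}
    (hne : (Gset A V t).Nonempty)
    (h : ∀ k ∈ Gset A V t, mu A lam x k.1 + ∑ s ∈ k.2, mu A lam x s ≤ r) :
    G A lam V x t ≤ r := by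
  apply csSup_le (hne.image _)
  rintro _ ⟨k, hk, rfl⟩
  exact h k hk

/-- along a tight chain the values `G` are the partial sums -/
lemma G_eq [Finite P] [DecidableLT P] {A U₁ V : Set P} {lam : A → ℝ}
    (hUV : ∀ u₁ ∈ U₁, ∀ u₂ ∈ V, ¬ u₁ < u₂) {x : {p : P // p ∉ A} → ℝ}
    (hx : ∀ b c a, Valid A U₁ V b c a → mu A lam x b + ∑ s ∈ c, mu A lam x s ≤ mu A lam x a)
    {b : P} {c : Finset P} {a : P} (hval : Valid A U₁ V b c a)
    (htight : mu A lam x b + ∑ s ∈ c, mu A lam x s = mu A lam x a) {t : P} (ht : t ∈ c) :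
    G A lam V x t = mu A lam x b + ∑ s ∈ c.filter (· < t), mu A lam x s := by
  classical
  obtain ⟨ha, hb, hcV, hch, hcba, hba, _⟩ := hval
  have htV : t ∈ V := hcV (by simpa using ht)
  have hbA : b ∈ A := by
    rcases hb with hb | hb
    · exact hb
    · exact absurd (hcba t ht).1 (hUV b hb t htV)
  have hmem : (b, c.filter (· < t)) ∈ Gset A V t := by
    refine ⟨hbA, ?_, ?_, ?_, (hcba t ht).1⟩
    · intro s hs
      simp only [Finset.coe_filter, mem_ofPred_eq] at hs
      exact hcV (by simpa using hs.1)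
    · refine IsChain.mono ?_ hch
      intro s hs
      simp only [Finset.coe_filter, mem_ofPred_eq] at hs
      simpa using hs.1
    · intro s hs
      rw [Finset.mem_filter] at hs
      exact ⟨(hcba s hs.1).1, hs.2⟩
  apply le_antisymm
  · apply G_le ⟨_, hmem⟩
    rintro ⟨b', c'⟩ ⟨hb'A, hc'V, hc'ch, hc'b, hb't⟩
    simp only at hb'A hc'V hc'ch hc'b hb't ⊢
    have hd : Disjoint c' (c.filter (t ≤ ·)) := by
      rw [Finset.disjoint_left]
      intro s hs hs'
      rw [Finset.mem_filter] at hs'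
      exact absurd hs'.2 (not_le_of_gt (hc'b s hs).2)
    have hv : Valid A U₁ V b' (c' ∪ c.filter (t ≤ ·)) a := by
      refine ⟨ha, Or.inl hb'A, ?_, ?_, ?_, hb't.trans (hcba t ht).2, ?_⟩
      · intro s hs
        simp only [Finset.coe_union, Finset.coe_filter, mem_union, Finset.mem_coe,
          mem_ofPred_eq] at hs
        rcases hs with hs | hs
        · exact hc'V (by simpa using hs)
        · exact hcV (by simpa using hs.1)
      · intro s hs s' hs' hne
        simp only [Finset.coe_union, Finset.coe_filter, mem_union, Finset.mem_coe,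
          mem_ofPred_eq] at hs hs'
        rcases hs with hs | hs <;> rcases hs' with hs' | hs'
        · exact hc'ch (by simpa using hs) (by simpa using hs') hne
        · exact Or.inl ((hc'b s hs).2.le.trans hs'.2)
        · exact Or.inr ((hc'b s' hs').2.le.trans hs.2)
        · exact hch (by simpa using hs.1) (by simpa using hs'.1) hne
      · intro s hs
        rw [Finset.mem_union, Finset.mem_filter] at hs
        rcases hs with hs | hs
        · exact ⟨(hc'b s hs).1, (hc'b s hs).2.trans (hcba t ht).2⟩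
        · exact ⟨hb't.trans_le hs.2, (hcba s hs.1).2⟩
      · rintro ⟨h, _⟩
        have : t ∈ c' ∪ c.filter (t ≤ ·) := by
          rw [Finset.mem_union, Finset.mem_filter]
          exact Or.inr ⟨ht, le_rfl⟩
        rw [h] at this
        simp at this
    have h1 := hx _ _ _ hv
    rw [Finset.sum_union hd] at h1
    have h2 := Finset.sum_filter_add_sum_filter_not c (fun s => s < t) (fun s => mu A lam x s)
    have h3 : c.filter (fun s => ¬ s < t) = c.filter (t ≤ ·) := by
      apply Finset.filter_congr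
      intro s hs
      constructor
      · intro h
        rcases eq_or_ne s t with rfl | hne
        · exact le_rfl
        · rcases hch (by simpa using hs) (by simpa using ht) hne with h' | h'
          · exact absurd (lt_of_le_of_ne h' hne) h
          · exact h'
      · intro h h'
        exact absurd h (not_le_of_gt h')
    rw [h3] at h2
    linarith
  · exact le_G (lam := lam) (x := x) hmem

/-- index type of the constraints not involving `p` -/
abbrev JB (A U₁ V : Set P) : Type _ :=
  {t : P // t ∈ V} ⊕ {k : P × Finset P × P // Valid A U₁ V k.1 k.2.1 k.2.2}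

/-- slack functions of the constraints not involving `p` -/
noncomputable def betaB (A : Set P) (lam : A → ℝ) (U₁ V : Set P) :
    JB A U₁ V → ({p : P // p ∉ A} → ℝ) →ᵃ[ℝ] ℝ
  | Sum.inl t => ev A lam t
  | Sum.inr k => ev A lam k.1.2.2 - (ev A lam k.1.1 + (Lc A k.1.2.1).toAffineMap)

/-- lower pieces -/
noncomputable def mB (A : Set P) (lam : A → ℝ) (V : Set P) (p : P) :
    ↥(Gset A V p) → ({p : P // p ∉ A} → ℝ) →ᵃ[ℝ] ℝ :=
  fun k => ev A lam k.1.1 + (Lc A k.1.2).toAffineMap

/-- upper pieces -/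
noncomputable def MB (A : Set P) (lam : A → ℝ) (U₁ : Set P) (p : P) :
    {a : P // a ∈ A ∪ U₁ ∧ p < a} → ({p : P // p ∉ A} → ℝ) →ᵃ[ℝ] ℝ :=
  fun a => ev A lam a

lemma mem_poly_betaB {A : Set P} {lam : A → ℝ} {U₁ V : Set P} (hV : V ⊆ Aᶜ)
    (x : {p : P // p ∉ A} → ℝ) : x ∈ Poly (betaB A lam U₁ V) ↔
      (∀ t ∈ V, 0 ≤ mu A lam x t) ∧ ∀ b c a, Valid A U₁ V b c a →
        mu A lam x b + ∑ s ∈ c, mu A lam x s ≤ mu A lam x a := by
  constructor
  · intro h
    refine ⟨fun t ht => ?_, fun b c a hv => ?_⟩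
    · have := h (Sum.inl ⟨t, ht⟩)
      simp only [betaB, ev_apply] at this
      exact this
    · have := h (Sum.inr ⟨(b, c, a), hv⟩)
      simp only [betaB, AffineMap.coe_sub, AffineMap.coe_add, Pi.sub_apply, Pi.add_apply, ev_apply,
        LinearMap.coe_toAffineMap] at this
      rw [Lc_apply (lam := lam) (hv.2.2.1.trans hV)] at this
      linarith
  · rintro ⟨h1, h2⟩ (⟨t, ht⟩ | ⟨⟨b, c, a⟩, hv⟩)
    · simp only [betaB, ev_apply]
      exact h1 t ht
    · simp only [betaB, AffineMap.coe_sub, AffineMap.coe_add, Pi.sub_apply, Pi.add_apply, ev_apply,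
        LinearMap.coe_toAffineMap]
      rw [Lc_apply (lam := lam) (hv.2.2.1.trans hV)]
      have := h2 b c a hv
      linarith

lemma mB_apply {A : Set P} {lam : A → ℝ} {V : Set P} {p : P} (hV : V ⊆ Aᶜ)
    (k : ↥(Gset A V p)) (x : {p : P // p ∉ A} → ℝ) :
    mB A lam V p k x = mu A lam x k.1.1 + ∑ s ∈ k.1.2, mu A lam x s := by
  simp only [mB, AffineMap.coe_add, Pi.add_apply, ev_apply, LinearMap.coe_toAffineMap]
  rw [Lc_apply (lam := lam) (k.2.2.1.trans hV)]

lemma MB_apply {A : Set P} {lam : A → ℝ} {U₁ : Set P} {p : P}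
    (a : {a : P // a ∈ A ∪ U₁ ∧ p < a}) (x : {p : P // p ∉ A} → ℝ) :
    MB A lam U₁ p a x = mu A lam x a := ev_apply A lam a x

open Classical in
/-- truncation at level `θ`: the part of `x` above `θ` (in transferred coordinates) -/
noncomputable def trunc (A : Set P) (lam : A → ℝ) (U₁ V : Set P) (θ : ℝ)
    (x : {p : P // p ∉ A} → ℝ) : {p : P // p ∉ A} → ℝ := fun r =>
  if (r : P) ∈ U₁ then max (x r) θ
  else if (r : P) ∈ V then max (G A lam V x r + x r) θ - max (G A lam V x r) θ
  else 0

lemma trunc_U {A : Set P} {lam : A → ℝ} {U₁ V : Set P} {θ : ℝ} {x : {p : P // p ∉ A} → ℝ}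
    {r : {p : P // p ∉ A}} (h : (r : P) ∈ U₁) : trunc A lam U₁ V θ x r = max (x r) θ := by
  simp [trunc, h]

lemma trunc_V {A : Set P} {lam : A → ℝ} {U₁ V : Set P} {θ : ℝ} {x : {p : P // p ∉ A} → ℝ}
    {r : {p : P // p ∉ A}} (h' : (r : P) ∉ U₁) (h : (r : P) ∈ V) :
    trunc A lam U₁ V θ x r = max (G A lam V x r + x r) θ - max (G A lam V x r) θ := by
  simp [trunc, h, h']

/-- sum of the truncation along a tight chain -/
lemma sum_trunc [Finite P] {A U₁ V : Set P} {lam : A → ℝ} (hV : V ⊆ Aᶜ)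
    (hdisj : ∀ r ∈ V, r ∉ U₁)
    (hUV : ∀ u₁ ∈ U₁, ∀ u₂ ∈ V, ¬ u₁ < u₂) (θ : ℝ) {x : {p : P // p ∉ A} → ℝ}
    (hx : ∀ b c a, Valid A U₁ V b c a → mu A lam x b + ∑ s ∈ c, mu A lam x s ≤ mu A lam x a)
    {b : P} {c : Finset P} {a : P} (hval : Valid A U₁ V b c a)
    (htight : mu A lam x b + ∑ s ∈ c, mu A lam x s = mu A lam x a) :
    ∑ t ∈ c, pr A t (trunc A lam U₁ V θ x) = max (mu A lam x a) θ - max (mu A lam x b) θ := by
  classical
  have h1 := telescope (fun s => mu A lam x s) (mu A lam x b) (fun z => max z θ) c hval.2.2.2.1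
  rw [htight] at h1
  rw [← h1]
  refine Finset.sum_congr rfl fun t ht => ?_
  have htV : t ∈ V := hval.2.2.1 (by simpa using ht)
  have htA : t ∉ A := hV htV
  rw [pr_apply_notMem htA, trunc_V (hdisj t htV) htV]
  have hG := G_eq (lam := lam) hUV hx hval htight ht
  have hmu : x ⟨t, htA⟩ = mu A lam x t := (mu_notMem htA).symm
  simp only [hmu]
  rw [hG]

/-- **splitting lemma** for marked chain-order polytopes -/
lemma poset_split [Finite P] {A U₁ V : Set P} {lam : A → ℝ} {p : P} (hpA : p ∉ A)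
    (hV : V ⊆ Aᶜ) (hdisj : ∀ r ∈ V, r ∉ U₁) (hUV : ∀ u₁ ∈ U₁, ∀ u₂ ∈ V, ¬ u₁ < u₂)
    (hA : ∀ p : P, IsMin p ∨ IsMax p → p ∈ A)
    (y : {p : P // p ∉ A} → ℝ) (hy : y ∈ Poly (betaB A lam U₁ V))
    (hgap : ∀ c d, mB A lam V p c y < MB A lam U₁ p d y)
    (v : {p : P // p ∉ A} → ℝ)
    (hv : v ∈ dirSp (betaB A lam U₁ V) (Tight (betaB A lam U₁ V) y)) :
    ∃ w ∈ dirSp (betaB A lam U₁ V) (Tight (betaB A lam U₁ V) y),
      (∀ c, (mB A lam V p c).linear w = 0) ∧
        ∀ d, (MB A lam U₁ p d).linear w = (MB A lam U₁ p d).linear v := by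
  classical
  have := Fintype.ofFinite {p : P // p ∉ A}
  -- nonemptiness of the index sets
  obtain ⟨b0, hb0A, hb0p⟩ := exists_min_below hA p hpA
  obtain ⟨a0, ha0A, ha0p⟩ := exists_max_above hA p hpA
  have hne1 : Nonempty ↥(Gset A V p) := ⟨⟨(b0, ∅), hb0A, by simp, by simp, by simp, hb0p⟩⟩
  have hne2 : Nonempty {a : P // a ∈ A ∪ U₁ ∧ p < a} := ⟨⟨a0, Or.inl ha0A, ha0p⟩⟩
  -- choice of the level θ
  obtain ⟨cm, hcm⟩ := Finite.exists_max (fun c => mB A lam V p c y)
  obtain ⟨dm, hdm⟩ := Finite.exists_min (fun d => MB A lam U₁ p d y)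
  obtain ⟨θ, hθ1, hθ2⟩ := exists_between (hgap cm dm)
  have hθm : ∀ c, mB A lam V p c y < θ := fun c => (hcm c).trans_lt hθ1
  have hθM : ∀ d, θ < MB A lam U₁ p d y := fun d => hθ2.trans_le (hdm d)
  -- choice of ε
  have ev1 := eventually_tight (betaB A lam U₁ V) hy hv
  have ev2 : ∀ᶠ ε in 𝓝 (0:ℝ), ∀ c, mB A lam V p c (y + ε • v) < θ := by
    rw [eventually_all]
    intro c
    filter_upwards [eventually_pos (θ - mB A lam V p c y) (- (mB A lam V p c).linear v)
      (sub_pos.2 (hθm c))] with ε hε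
    rw [aff_add_smul]
    linarith
  have ev3 : ∀ᶠ ε in 𝓝 (0:ℝ), ∀ d, θ < MB A lam U₁ p d (y + ε • v) := by
    rw [eventually_all]
    intro d
    filter_upwards [eventually_pos (MB A lam U₁ p d y - θ) ((MB A lam U₁ p d).linear v)
      (sub_pos.2 (hθM d))] with ε hε
    rw [aff_add_smul]
    linarith
  obtain ⟨ε, ⟨⟨⟨hy', htight'⟩, hm'⟩, hM'⟩, hpos⟩ :=
    ((((ev1.and ev2).and ev3).filter_mono nhdsWithin_le_nhds).and
      (self_mem_nhdsWithin (a := (0:ℝ)) (s := Set.Ioi 0))).exists
  have hpos : 0 < ε := hpos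
  set y' := y + ε • v with hy'def
  have hyc := (mem_poly_betaB hV y).1 hy
  have hyc' := (mem_poly_betaB hV y').1 hy'
  -- the candidate
  refine ⟨ε⁻¹ • (trunc A lam U₁ V θ y' - trunc A lam U₁ V θ y), ?_, ?_, ?_⟩
  · rw [mem_dirSp]
    intro j hj
    rw [map_smul, smul_eq_mul]
    have hj' : j ∈ Tight (betaB A lam U₁ V) y' := by rw [htight']; exact hj
    have goal0 : (betaB A lam U₁ V j).linear (trunc A lam U₁ V θ y' - trunc A lam U₁ V θ y) = 0 := by
      rcases j with ⟨t, ht⟩ | ⟨⟨b, c, a⟩, hval⟩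
      · have e1 : mu A lam y t = 0 := by
          have : betaB A lam U₁ V (Sum.inl ⟨t, ht⟩) y = 0 := hj
          simpa only [betaB, ev_apply] using this
        have e2 : mu A lam y' t = 0 := by
          have : betaB A lam U₁ V (Sum.inl ⟨t, ht⟩) y' = 0 := hj'
          simpa only [betaB, ev_apply] using this
        have htA : t ∉ A := hV ht
        rw [mu_notMem htA] at e1 e2
        simp only [betaB, ev_linear]
        rw [map_sub, pr_apply_notMem htA, pr_apply_notMem htA, trunc_V (hdisj t ht) ht,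
          trunc_V (hdisj t ht) ht, e1, e2]
        simp
      · have e1 : mu A lam y b + ∑ s ∈ c, mu A lam y s = mu A lam y a := by
          have h : betaB A lam U₁ V (Sum.inr ⟨(b, c, a), hval⟩) y = 0 := hj
          simp only [betaB, AffineMap.coe_sub, AffineMap.coe_add, Pi.sub_apply, Pi.add_apply,
            ev_apply, LinearMap.coe_toAffineMap] at h
          rw [Lc_apply (lam := lam) (hval.2.2.1.trans hV)] at h
          linarith
        have e2 : mu A lam y' b + ∑ s ∈ c, mu A lam y' s = mu A lam y' a := by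
          have h : betaB A lam U₁ V (Sum.inr ⟨(b, c, a), hval⟩) y' = 0 := hj'
          simp only [betaB, AffineMap.coe_sub, AffineMap.coe_add, Pi.sub_apply, Pi.add_apply,
            ev_apply, LinearMap.coe_toAffineMap] at h
          rw [Lc_apply (lam := lam) (hval.2.2.1.trans hV)] at h
          linarith
        have s1 := sum_trunc hV hdisj hUV θ hyc.2 hval e1
        have s2 := sum_trunc hV hdisj hUV θ hyc'.2 hval e2
        -- endpoints
        have hend : ∀ r ∈ A ∪ U₁, pr A r (trunc A lam U₁ V θ y') - pr A r (trunc A lam U₁ V θ y) =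
            max (mu A lam y' r) θ - max (mu A lam y r) θ := by
          intro r hr
          by_cases hrA : r ∈ A
          · rw [pr_apply_mem hrA, pr_apply_mem hrA, mu_mem hrA, mu_mem hrA]; simp
          · have hrU : r ∈ U₁ := hr.resolve_left hrA
            rw [pr_apply_notMem hrA, pr_apply_notMem hrA, mu_notMem hrA, mu_notMem hrA,
              trunc_U (r := ⟨r, hrA⟩) hrU, trunc_U (r := ⟨r, hrA⟩) hrU]
        have ea := hend a hval.1
        have eb := hend b hval.2.1
        simp only [betaB, AffineMap.sub_linear, AffineMap.add_linear, ev_linear,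
          LinearMap.sub_apply, LinearMap.add_apply, LinearMap.toAffineMap_linear, Lc,
          LinearMap.sum_apply, map_sub]
        simp only at s1 s2
        rw [s1, s2]
        linarith
    rw [goal0, mul_zero]
  · intro k
    rw [map_smul, smul_eq_mul]
    have hkA : k.1.1 ∈ A := k.2.1
    have goal0 : (mB A lam V p k).linear (trunc A lam U₁ V θ y' - trunc A lam U₁ V θ y) = 0 := by
      simp only [mB, AffineMap.add_linear, ev_linear, LinearMap.add_apply,
        LinearMap.toAffineMap_linear]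
      rw [pr_apply_mem hkA, zero_add, Lc, LinearMap.sum_apply]
      apply Finset.sum_eq_zero
      intro t ht
      have htV : t ∈ V := k.2.2.1 (by simpa using ht)
      have htA : t ∉ A := hV htV
      have htp : t < p := (k.2.2.2.2.1 t ht).2
      -- both truncations vanish at `t`
      have hz : ∀ z : {p : P // p ∉ A} → ℝ, (∀ t ∈ V, 0 ≤ mu A lam z t) →
          (∀ c, mB A lam V p c z < θ) → trunc A lam U₁ V θ z ⟨t, htA⟩ = 0 := by
        intro z hz0 hzm
        rw [trunc_V (r := ⟨t, htA⟩) (hdisj t htV) htV]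
        obtain ⟨b1, hb1A, hb1t⟩ := exists_min_below hA t htA
        have h1 : G A lam V z t ≤ θ - z ⟨t, htA⟩ := by
          apply G_le ⟨(b1, ∅), hb1A, by simp, by simp, by simp, hb1t⟩
          rintro ⟨b, c⟩ ⟨hbA, hcV, hcch, hcb, hbt⟩
          simp only at hbA hcV hcch hcb hbt ⊢
          have htc : t ∉ c := fun h => lt_irrefl t (hcb t h).2
          have hmem : (b, insert t c) ∈ Gset A V p := by
            refine ⟨hbA, ?_, ?_, ?_, hbt.trans htp⟩
            · intro s hs
              simp only [Finset.coe_insert, mem_insert_iff, Finset.mem_coe] at hs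
              rcases hs with rfl | hs
              · exact htV
              · exact hcV (by simpa using hs)
            · simp only [Finset.coe_insert]
              apply hcch.insert
              intro s hs _
              exact Or.inr (hcb s (by simpa using hs)).2.le
            · intro s hs
              rw [Finset.mem_insert] at hs
              rcases hs with rfl | hs
              · exact ⟨hbt, htp⟩
              · exact ⟨(hcb s hs).1, (hcb s hs).2.trans htp⟩
          have h2 := hzm ⟨_, hmem⟩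
          rw [mB_apply hV] at h2
          simp only at h2
          rw [Finset.sum_insert htc, mu_notMem htA] at h2
          linarith
        have h0 : 0 ≤ z ⟨t, htA⟩ := by
          have := hz0 t htV
          rwa [mu_notMem htA] at this
        simp only
        rw [max_eq_right (by linarith), max_eq_right (by linarith), sub_self]
      rw [map_sub, pr_apply_notMem htA, pr_apply_notMem htA, hz y' hyc'.1 hm', hz y hyc.1 hθm,
        sub_self]
    rw [goal0, mul_zero]
  · rintro ⟨a, haAU, hpa⟩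
    simp only [MB, ev_linear]
    rw [map_smul, smul_eq_mul]
    by_cases haA : a ∈ A
    · rw [pr_apply_mem haA, pr_apply_mem haA, mul_zero]
    · have haU : a ∈ U₁ := haAU.resolve_left haA
      have h1 := hθM ⟨a, haAU, hpa⟩
      have h2 := hM' ⟨a, haAU, hpa⟩
      rw [MB_apply, mu_notMem haA] at h1 h2
      rw [map_sub, pr_apply_notMem haA, pr_apply_notMem haA, pr_apply_notMem haA,
        trunc_U (r := ⟨a, haA⟩) haU, trunc_U (r := ⟨a, haA⟩) haU, max_eq_left h1.le,
        max_eq_left h2.le, hy'def]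
      simp only [Pi.add_apply, Pi.smul_apply, smul_eq_mul, add_sub_cancel_left]
      rw [← mul_assoc, inv_mul_cancel₀ hpos.ne', one_mul]

/-- one step: move a maximal element `p` of `U₂` into `U₁` -/
theorem CO_step [Finite P] {A U₁ U₂ : Set P} (hA : ∀ p : P, IsMin p ∨ IsMax p → p ∈ A)
    {lam : A → ℝ} (hlam : ∀ a, 0 ≤ lam a) (hU : IsAdmissible A U₁ U₂) {p : P} (hp : p ∈ U₂)
    (hpmax : ∀ q ∈ U₂, ¬ p < q) (i : ℕ) :
    faceCount (CO A lam (insert p U₁) (U₂ \ {p})) i ≤ faceCount (CO A lam U₁ U₂) i := by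
  classical
  have hU1A : U₁ ⊆ Aᶜ := by rw [← hU.union_eq]; exact subset_union_left
  have hU2A : U₂ ⊆ Aᶜ := by rw [← hU.union_eq]; exact subset_union_right
  have hpA : p ∉ A := hU2A hp
  have hpU : p ∉ U₁ := fun h => by
    have : p ∈ U₁ ∩ U₂ := ⟨h, hp⟩
    rw [hU.inter_eq] at this; exact this
  have hVA : U₂ \ {p} ⊆ Aᶜ := sdiff_subset.trans hU2A
  have hdisj : ∀ r ∈ U₂ \ {p}, r ∉ U₁ := fun r hr h => by
    have : r ∈ U₁ ∩ U₂ := ⟨h, hr.1⟩
    rw [hU.inter_eq] at this; exact this
  have hUV : ∀ u₁ ∈ U₁, ∀ u₂ ∈ U₂ \ {p}, ¬ u₁ < u₂ := fun u₁ h₁ u₂ h₂ => hU.not_lt u₁ h₁ u₂ h₂.1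
  have hV : IsAdmissible A (insert p U₁) (U₂ \ {p}) := by
    refine ⟨?_, ?_, ?_⟩
    · rw [← hU.union_eq]
      ext r
      simp only [mem_union, mem_insert_iff, mem_diff, mem_singleton_iff]
      constructor
      · rintro ((rfl | h) | ⟨h, _⟩)
        · exact Or.inr hp
        · exact Or.inl h
        · exact Or.inr h
      · rintro (h | h)
        · exact Or.inl (Or.inr h)
        · by_cases hrp : r = p
          · exact Or.inl (Or.inl hrp)
          · exact Or.inr ⟨h, hrp⟩
    · ext r
      simp only [mem_inter_iff, mem_insert_iff, mem_diff, mem_singleton_iff, mem_empty_iff_false,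
        iff_false]
      rintro ⟨rfl | h, h2, h3⟩
      · exact h3 rfl
      · exact hdisj r ⟨h2, h3⟩ h
    · rintro u₁ (rfl | h₁) u₂ h₂
      · exact hpmax u₂ h₂.1
      · exact hU.not_lt u₁ h₁ u₂ h₂.1
  have hne : ∀ r ∈ A ∪ U₁, r ≠ p := by
    rintro r (h | h) rfl
    · exact hpA h
    · exact hpU h
  obtain ⟨b0, hb0A, hb0p⟩ := exists_min_below hA p hpA
  obtain ⟨a0, ha0A, ha0p⟩ := exists_max_above hA p hpA
  have hne1 : Nonempty ↥(Gset A (U₂ \ {p}) p) :=
    ⟨⟨(b0, ∅), hb0A, by simp, by simp, by simp, hb0p⟩⟩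
  have hne2 : Nonempty {a : P // a ∈ A ∪ U₁ ∧ p < a} := ⟨⟨a0, Or.inl ha0A, ha0p⟩⟩
  have hτ : ∀ x : {p : P // p ∉ A} → ℝ, pr A p x = mu A lam x p := fun x => by
    rw [pr_apply_notMem hpA, mu_notMem hpA]
  -- description of the two polytopes
  have hset2 : CO A lam (insert p U₁) (U₂ \ {p}) = {x | x ∈ Poly (betaB A lam U₁ (U₂ \ {p})) ∧
      (∀ c, mB A lam (U₂ \ {p}) p c x ≤ pr A p x) ∧ ∀ d, pr A p x ≤ MB A lam U₁ p d x} := by
    ext x
    rw [mem_CO_iff hA hlam hV, mem_ofPred_eq, mem_poly_betaB hVA]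
    constructor
    · rintro ⟨h1, h2⟩
      refine ⟨⟨h1, ?_⟩, ?_, ?_⟩
      · rintro b c a ⟨ha, hb, hrest⟩
        exact h2 b c a ⟨ha.imp_right (Or.inr ·), hb.imp_right (Or.inr ·), hrest⟩
      · rintro ⟨⟨b, c⟩, hbA, hcV, hch, hcb, hbp⟩
        rw [mB_apply hVA, hτ]
        exact h2 b c p ⟨Or.inr (Or.inl rfl), Or.inl hbA, hcV, hch, hcb, hbp, fun h => hpA h.2.1⟩
      · rintro ⟨a, haAU, hpa⟩
        rw [MB_apply, hτ]
        have := h2 p ∅ a ⟨haAU.imp_right (Or.inr ·), Or.inr (Or.inl rfl), by simp, by simp, by simp,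
          hpa, fun h => hpA h.2.2⟩
        simpa using this
    · rintro ⟨⟨h1, h2⟩, h3, h4⟩
      refine ⟨h1, ?_⟩
      rintro b c a ⟨ha, hb, hcV, hch, hcb, hba, hnt⟩
      by_cases hap : a = p
      · subst hap
        have hbA : b ∈ A := by
          rcases hb with hb | rfl | hb
          · exact hb
          · exact absurd hba (lt_irrefl _)
          · exact absurd hba (hU.not_lt b hb a hp)
        have := h3 ⟨(b, c), hbA, hcV, hch, hcb, hba⟩
        rw [mB_apply hVA, hτ] at this
        exact this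
      · have haAU : a ∈ A ∪ U₁ := by
          rcases ha with ha | ha | ha
          · exact Or.inl ha
          · exact absurd ha hap
          · exact Or.inr ha
        by_cases hbp : b = p
        · subst hbp
          have hc0 : c = ∅ := by
            rw [Finset.eq_empty_iff_forall_notMem]
            intro s hs
            exact hpmax s (hcV (by simpa using hs)).1 (hcb s hs).1
          subst hc0
          have := h4 ⟨a, haAU, hba⟩
          rw [MB_apply, hτ] at this
          simpa using this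
        · have hbAU : b ∈ A ∪ U₁ := by
            rcases hb with hb | hb | hb
            · exact Or.inl hb
            · exact absurd hb hbp
            · exact Or.inr hb
          exact h2 b c a ⟨haAU, hbAU, hcV, hch, hcb, hba, hnt⟩
  have hset1 : CO A lam U₁ U₂ = {x | x ∈ Poly (betaB A lam U₁ (U₂ \ {p})) ∧
      0 ≤ pr A p x ∧ ∀ c d, pr A p x + mB A lam (U₂ \ {p}) p c x ≤ MB A lam U₁ p d x} := by
    ext x
    rw [mem_CO_iff hA hlam hU, mem_ofPred_eq, mem_poly_betaB hVA]
    constructor
    · rintro ⟨h1, h2⟩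
      refine ⟨⟨fun t ht => h1 t ht.1, ?_⟩, ?_, ?_⟩
      · rintro b c a ⟨ha, hb, hcV, hrest⟩
        exact h2 b c a ⟨ha, hb, hcV.trans sdiff_subset, hrest⟩
      · rw [hτ]; exact h1 p hp
      · rintro ⟨⟨b, c⟩, hbA, hcV, hch, hcb, hbp⟩ ⟨a, haAU, hpa⟩
        rw [mB_apply hVA, MB_apply, hτ]
        simp only at hbA hcV hch hcb hbp ⊢
        have hpc : p ∉ c := fun h => lt_irrefl p (hcb p h).2
        have := h2 b (insert p c) a ⟨haAU, Or.inl hbA, ?_, ?_, ?_, hbp.trans hpa, ?_⟩
        · rw [Finset.sum_insert hpc] at this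
          linarith
        · intro s hs
          simp only [Finset.coe_insert, mem_insert_iff, Finset.mem_coe] at hs
          rcases hs with rfl | hs
          · exact hp
          · exact (hcV (by simpa using hs)).1
        · simp only [Finset.coe_insert]
          apply hch.insert
          intro s hs _
          exact Or.inr (hcb s (by simpa using hs)).2.le
        · intro s hs
          rw [Finset.mem_insert] at hs
          rcases hs with rfl | hs
          · exact ⟨hbp, hpa⟩
          · exact ⟨(hcb s hs).1, (hcb s hs).2.trans hpa⟩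
        · rintro ⟨h, _⟩
          exact absurd h (Finset.insert_ne_empty p c)
    · rintro ⟨⟨h1, h2⟩, h3, h4⟩
      refine ⟨fun t ht => ?_, ?_⟩
      · by_cases htp : t = p
        · subst htp
          rw [hτ] at h3; exact h3
        · exact h1 t ⟨ht, htp⟩
      · rintro b c a ⟨ha, hb, hcU, hch, hcb, hba, hnt⟩
        by_cases hpc : p ∈ c
        · have hbA : b ∈ A := by
            rcases hb with hb | hb
            · exact hb
            · exact absurd (hcb p hpc).1 (hU.not_lt b hb p hp)
          have hmem : (b, c.erase p) ∈ Gset A (U₂ \ {p}) p := by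
            refine ⟨hbA, ?_, ?_, ?_, (hcb p hpc).1⟩
            · intro s hs
              simp only [Finset.coe_erase] at hs
              exact ⟨hcU hs.1, hs.2⟩
            · refine IsChain.mono ?_ hch
              intro s hs
              simp only [Finset.coe_erase] at hs
              exact hs.1
            · intro s hs
              rw [Finset.mem_erase] at hs
              refine ⟨(hcb s hs.2).1, ?_⟩
              rcases hch (by simpa using hs.2) (by simpa using hpc) hs.1 with h | h
              · exact lt_of_le_of_ne h hs.1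
              · exact absurd (lt_of_le_of_ne h hs.1.symm) (hpmax s (hcU (by simpa using hs.2)))
          have := h4 ⟨_, hmem⟩ ⟨a, ha, (hcb p hpc).2⟩
          rw [mB_apply hVA, MB_apply, hτ] at this
          simp only at this
          rw [← Finset.sum_erase_add _ _ hpc]
          linarith
        · refine h2 b c a ⟨ha, hb, ?_, hch, hcb, hba, hnt⟩
          intro s hs
          refine ⟨hcU hs, ?_⟩
          rintro rfl
          exact hpc (by simpa using hs)
  rw [hset1, hset2]
  -- the moving direction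
  have hprne : ∀ r, r ≠ p → pr A r (Pi.single ⟨p, hpA⟩ (1:ℝ)) = 0 := by
    intro r hr
    by_cases hrA : r ∈ A
    · exact pr_apply_mem hrA _
    · rw [pr_apply_notMem hrA, Pi.single_apply, if_neg]
      intro h
      exact hr (congrArg Subtype.val h)
  have hLc : ∀ c : Finset P, (c : Set P) ⊆ U₂ \ {p} → Lc A c (Pi.single ⟨p, hpA⟩ (1:ℝ)) = 0 := by
    intro c hc
    rw [Lc, LinearMap.sum_apply]
    apply Finset.sum_eq_zero
    intro s hs
    exact hprne s (fun h => (hc (by simpa using hs)).2 h)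
  refine abstract_step (e := Pi.single ⟨p, hpA⟩ (1:ℝ)) ?_ ?_ ?_ ?_ ?_ i
  · rw [pr_apply_notMem hpA, Pi.single_eq_same]
  · rintro (⟨t, ht⟩ | ⟨⟨b, c, a⟩, hval⟩)
    · simp only [betaB, ev_linear]
      exact hprne t ht.2
    · simp only [betaB, AffineMap.sub_linear, AffineMap.add_linear, ev_linear,
        LinearMap.sub_apply, LinearMap.add_apply, LinearMap.toAffineMap_linear]
      rw [hprne a (hne a hval.1), hprne b (hne b hval.2.1), hLc c hval.2.2.1]
      simp
  · rintro ⟨⟨b, c⟩, hbA, hcV, hrest⟩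
    simp only [mB, AffineMap.add_linear, ev_linear, LinearMap.add_apply,
        LinearMap.toAffineMap_linear]
    rw [hprne b (hne b (Or.inl hbA)), hLc c hcV, add_zero]
  · rintro ⟨a, haAU, hpa⟩
    simp only [MB, ev_linear]
    exact hprne a (hne a haAU)
  · intro y hy hgap v hv
    exact poset_split hpA hVA hdisj hUV hA y hy hgap v hv

/-- **Main theorem.** -/
theorem faceCount_mono {P : Type*} [PartialOrder P] [Finite P] (A : Set P)
    (hA : ∀ p : P, IsMin p ∨ IsMax p → p ∈ A) (lam : A → ℝ) (hlam : ∀ a, 0 ≤ lam a)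
    (U₁ U₂ V₁ V₂ : Set P) (hU : IsAdmissible A U₁ U₂) (hV : IsAdmissible A V₁ V₂)
    (hUV : U₁ ⊆ V₁) (i : ℕ) :
    faceCount (CO A lam V₁ V₂) i ≤ faceCount (CO A lam U₁ U₂) i := by
  classical
  induction hn : (V₁ \ U₁).ncard generalizing U₁ U₂ with
  | zero =>
    rw [Set.ncard_eq_zero (Set.toFinite _), Set.sdiff_eq_empty] at hn
    have h1 : U₁ = V₁ := Set.Subset.antisymm hUV hn
    subst h1
    have h2 : ∀ {W : Set P}, IsAdmissible A U₁ W → W = Aᶜ \ U₁ := by
      intro W hW
      ext r
      constructor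
      · intro hr
        refine ⟨by rw [← hW.union_eq]; exact Or.inr hr, fun h => ?_⟩
        have : r ∈ U₁ ∩ W := ⟨h, hr⟩
        rw [hW.inter_eq] at this; exact this
      · rintro ⟨hr, hr'⟩
        rw [← hW.union_eq] at hr
        exact hr.resolve_left hr'
    rw [h2 hU, h2 hV]
  | succ n ih =>
    have hne : (V₁ \ U₁).Nonempty := by
      rw [← Set.ncard_pos (Set.toFinite _), hn]; exact Nat.succ_pos n
    obtain ⟨p, hpm⟩ := (Set.toFinite (V₁ \ U₁)).exists_maximal hne
    have hpV : p ∈ V₁ := hpm.1.1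
    have hpU1 : p ∉ U₁ := hpm.1.2
    have hpU2 : p ∈ U₂ := by
      have : p ∈ Aᶜ := by rw [← hV.union_eq]; exact Or.inl hpV
      rw [← hU.union_eq] at this
      exact this.resolve_left hpU1
    have hpmax : ∀ q ∈ U₂, ¬ p < q := by
      intro q hq hpq
      have hqA : q ∈ Aᶜ := by rw [← hU.union_eq]; exact Or.inr hq
      have hqU1 : q ∉ U₁ := fun h => by
        have : q ∈ U₁ ∩ U₂ := ⟨h, hq⟩
        rw [hU.inter_eq] at this; exact this
      have hqV1 : q ∈ V₁ := by
        rw [← hV.union_eq] at hqA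
        rcases hqA with h | h
        · exact h
        · exact absurd hpq (hV.not_lt p hpV q h)
      exact absurd (hpm.2 ⟨hqV1, hqU1⟩ hpq.le) (not_le_of_gt hpq)
    have hstep := CO_step hA hlam hU hpU2 hpmax i
    have hU' : IsAdmissible A (insert p U₁) (U₂ \ {p}) := by
      refine ⟨?_, ?_, ?_⟩
      · rw [← hU.union_eq]
        ext r
        simp only [mem_union, mem_insert_iff, mem_diff, mem_singleton_iff]
        constructor
        · rintro ((rfl | h) | ⟨h, _⟩)
          · exact Or.inr hpU2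
          · exact Or.inl h
          · exact Or.inr h
        · rintro (h | h)
          · exact Or.inl (Or.inr h)
          · by_cases hrp : r = p
            · exact Or.inl (Or.inl hrp)
            · exact Or.inr ⟨h, hrp⟩
      · ext r
        simp only [mem_inter_iff, mem_insert_iff, mem_diff, mem_singleton_iff, mem_empty_iff_false,
          iff_false]
        rintro ⟨rfl | h, h2, h3⟩
        · exact h3 rfl
        · have : r ∈ U₁ ∩ U₂ := ⟨h, h2⟩
          rw [hU.inter_eq] at this; exact this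
      · rintro u₁ (rfl | h₁) u₂ h₂
        · exact hpmax u₂ h₂.1
        · exact hU.not_lt u₁ h₁ u₂ h₂.1
    refine (ih (insert p U₁) (U₂ \ {p}) hU' ?_ ?_).trans hstep
    · intro r hr
      rcases hr with rfl | hr
      · exact hpV
      · exact hUV hr
    · have h1 : V₁ \ insert p U₁ = (V₁ \ U₁) \ {p} := by
        ext r
        simp only [mem_diff, mem_insert_iff, mem_singleton_iff, not_or]
        tauto
      rw [h1, Set.ncard_sdiff_singleton_of_mem hpm.1, hn]
      rfl

end Poset

end Pool.Agent.MCO
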